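import Pool.Agent.Lib.MP_4fe900_gt.DG

/-!
The lower bound for all digraphs: an embedding in a book in which all cycles of length two split off.
-/

namespace Pool.Agent.Lib.MP_4fe900_gt.DG

open Set Metric

namespace Book

/-- a point -/
noncomputable def P (x y z : ℝ) : R3 := !₂[x, y, z]

theorem P_inj {x y z x' y' z' : ℝ} (h : P x y z = P x' y' z') : x = x' ∧ y = y' ∧ z = z' :=
  ⟨by simpa [P] using congrArg (· 0) h, by simpa [P] using congrArg (· 1) h,
    by simpa [P] using congrArg (· 2) h⟩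

theorem P_eta (p : R3) : P (p 0) (p 1) (p 2) = p := by
  ext i
  fin_cases i <;> simp [P]

theorem cont_P {X : Type} [TopologicalSpace X] {f g h : X → ℝ} (hf : Continuous f)
    (hg : Continuous g) (hh : Continuous h) : Continuous fun x => P (f x) (g x) (h x) := by
  unfold P
  fun_prop

/-- the profile -/
def q (a b z : ℝ) : ℝ := (z - a) * (b - z)

/-- the height -/
def ht (a b x : ℝ) : ℝ := a + x * (b - a)

theorem q_ht (a b x : ℝ) : q a b (ht a b x) = x * (1 - x) * (b - a) ^ 2 := by
  unfold q ht; ring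

theorem q_nonneg (a b : ℝ) (x : unitInterval) : 0 ≤ q a b (ht a b x) := by
  rw [q_ht]
  exact mul_nonneg (mul_nonneg x.2.1 (sub_nonneg.2 x.2.2)) (sq_nonneg _)

theorem q_zero {a b z : ℝ} (h : q a b z = 0) : z = a ∨ z = b :=
  (mul_eq_zero.1 h).imp (fun h => by linarith) fun h => by linarith

variable {N : ℕ} {E : Type}

/-- the embedding -/
noncomputable def emb (s t : E → Fin N) (h : ∀ e, s e ≠ t e) (μ : E → ℝ)
    (hμ : Function.Injective μ) : Emb s t where
  pt := fun v => P 0 0 (v : ℕ)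
  arc := fun e => ⟨fun x => P (q (s e : ℕ) (t e : ℕ) (ht (s e : ℕ) (t e : ℕ) x))
    (μ e * q (s e : ℕ) (t e : ℕ) (ht (s e : ℕ) (t e : ℕ) x)) (ht (s e : ℕ) (t e : ℕ) x),
    cont_P (by unfold q ht; fun_prop) (by unfold q ht; fun_prop) (by unfold ht; fun_prop)⟩
  pt_inj := fun a b e => Fin.ext (by exact_mod_cast (P_inj e).2.2)
  src := fun e => by simp [q, ht]
  tgt := fun e => by simp [q, ht]
  arc_inj := fun e x y hxy => by
    have h1 := (P_inj hxy).2.2
    have h2 : ((t e : ℕ) : ℝ) - (s e : ℕ) ≠ 0 := fun h' =>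
      h e (Fin.ext (by exact_mod_cast (sub_eq_zero.1 h').symm))
    exact Subtype.ext (mul_right_cancel₀ h2 (add_left_cancel h1))
  arc_pt := fun e v x hx => by
    obtain ⟨h1, -, h3⟩ := P_inj hx
    rw [h3] at h1
    exact (q_zero h1).imp (fun h => Fin.ext (by exact_mod_cast h))
      fun h => Fin.ext (by exact_mod_cast h)
  meet := fun e e' x y hne hx => by
    obtain ⟨h1, h2, -⟩ := P_inj hx
    rw [← h1] at h2
    have h0 := (mul_eq_mul_right_iff.1 h2).resolve_left fun h => hne (hμ h)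
    rcases q_zero h0 with h3 | h3
    · exact ⟨s e, by simp only [ContinuousMap.coe_mk, h0, mul_zero]; rw [h3]⟩
    · exact ⟨t e, by simp only [ContinuousMap.coe_mk, h0, mul_zero]; rw [h3]⟩

/-- the shear -/
noncomputable def shear (a b k : ℝ) : R3 ≃ₜ R3 where
  toFun := fun p => P (p 0 - max 0 (q a b (p 2))) (p 1 - k * max 0 (q a b (p 2))) (p 2)
  invFun := fun p => P (p 0 + max 0 (q a b (p 2))) (p 1 + k * max 0 (q a b (p 2))) (p 2)
  left_inv := fun p => by
    conv_rhs => rw [← P_eta p]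
    simp [P]
  right_inv := fun p => by
    conv_rhs => rw [← P_eta p]
    simp [P]
  continuous_toFun := cont_P (by unfold q; fun_prop) (by unfold q; fun_prop) (by fun_prop)
  continuous_invFun := cont_P (by unfold q; fun_prop) (by unfold q; fun_prop) (by fun_prop)

theorem tame (s t : E → Fin N) (h : ∀ e, s e ≠ t e) (μ : E → ℝ) (hμ : Function.Injective μ) :
    (emb s t h μ hμ).Tame := by
  intro e
  refine ⟨shear (s e : ℕ) (t e : ℕ) (μ e), P 0 0 (s e : ℕ), P 0 0 (t e : ℕ), ?_⟩
  have key : ∀ x : unitInterval, shear (s e : ℕ) (t e : ℕ) (μ e) ((emb s t h μ hμ).arc e x) =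
      P 0 0 (s e : ℕ) + (x : ℝ) • (P 0 0 (t e : ℕ) - P 0 0 (s e : ℕ)) := by
    intro x
    have := q_nonneg (s e : ℕ) (t e : ℕ) x
    ext i
    fin_cases i <;> simp [shear, emb, P, this]
    rfl
  rw [segment_eq_image', ← range_comp]
  ext z
  constructor
  · rintro ⟨x, rfl⟩
    exact ⟨x, x.2, (key x).symm⟩
  · rintro ⟨x, hx, rfl⟩
    exact ⟨⟨x, hx⟩, key ⟨x, hx⟩⟩

/-- the lens -/
def lens (a b M : ℝ) : Set R3 := {p | p 0 = 0 ∧ 0 ≤ p 1 ∧ p 1 ≤ M * q a b (p 2)}

theorem lens_convex (a b : ℝ) {M : ℝ} (hM : 0 ≤ M) : Convex ℝ (lens a b M) := by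
  rintro x ⟨x0, x1, x2⟩ y ⟨y0, y1, y2⟩ u v hu hv huv
  obtain rfl : v = 1 - u := by linarith
  refine ⟨by simp [x0, y0], by simp; positivity, ?_⟩
  simp only [PiLp.add_apply, PiLp.smul_apply, smul_eq_mul, q] at *
  nlinarith [mul_nonneg hM (mul_nonneg (mul_nonneg hu hv) (sq_nonneg (x 2 - y 2))),
    mul_le_mul_of_nonneg_left x2 hu, mul_le_mul_of_nonneg_left y2 hv]

theorem lens_closed (a b M : ℝ) : IsClosed (lens a b M) := by
  have h0 : Continuous fun p : R3 => p 0 := by fun_prop
  have h1 : Continuous fun p : R3 => p 1 := by fun_prop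
  have h2 : Continuous fun p : R3 => M * q a b (p 2) := by unfold q; fun_prop
  exact (isClosed_eq h0 continuous_const).inter
    ((isClosed_le continuous_const h1).inter (isClosed_le h1 h2))

theorem lens_bdd (a b : ℝ) {M : ℝ} (hM : 0 < M) : Bornology.IsBounded (lens a b M) := by
  have hc : IsCompact ((fun p : ℝ × ℝ => P 0 p.1 p.2) ''
      (Icc 0 (M * (b - a) ^ 2) ×ˢ Icc (-(|a| + |b|)) (|a| + |b|))) :=
    (isCompact_Icc.prod isCompact_Icc).image (cont_P (by fun_prop) (by fun_prop) (by fun_prop))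
  refine hc.isBounded.subset ?_
  rintro p ⟨p0, p1, p2⟩
  have h0 : 0 ≤ q a b (p 2) := nonneg_of_mul_nonneg_right (p1.trans p2) hM
  have h1 : q a b (p 2) ≤ (b - a) ^ 2 := by
    unfold q at *
    nlinarith [sq_nonneg (p 2 - a), sq_nonneg (b - p 2)]
  refine ⟨(p 1, p 2), ⟨⟨p1, p2.trans (mul_le_mul_of_nonneg_left h1 hM.le)⟩, ?_⟩, by
    simp only [← p0, P_eta]⟩
  have := abs_nonneg a
  have := abs_nonneg b
  have := le_abs_self a
  have := le_abs_self b
  have := neg_abs_le a
  have := neg_abs_le b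
  rcases mul_nonneg_iff.1 h0 with h | h <;> constructor <;> simp only <;> linarith [h.1, h.2]

theorem sep {D K : Set R3} (hc : Convex ℝ D) (hcl : IsClosed D) (hb : Bornology.IsBounded D)
    (hne : D.Nonempty) (hK : IsCompact K) (hd : Disjoint K D) :
    ∃ h : R3 ≃ₜ R3, (∀ x ∈ D, ‖h x‖ < 1) ∧ ∀ x ∈ K, 1 < ‖h x‖ := by
  obtain ⟨δ, hδ, h1⟩ := hd.exists_cthickenings hK hcl
  have ho : interior (thickening δ D) = thickening δ D := isOpen_thickening.interior_eq
  obtain ⟨h, e1, e2, -⟩ := exists_homeomorph_image_interior_closure_frontier_eq_unitBall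
    (hc.thickening δ) (by rw [ho]; exact hne.mono (self_subset_thickening hδ D)) hb.thickening
  refine ⟨h, fun x hx => ?_, fun x hx => ?_⟩
  · have : h x ∈ ball (0 : R3) 1 := by
      rw [← e1, ho]; exact mem_image_of_mem _ (self_subset_thickening hδ D hx)
    simpa using this
  · by_contra h2
    have : h x ∈ closedBall (0 : R3) 1 := by simpa using h2
    rw [← e2] at this
    obtain ⟨y, hy, e⟩ := this
    rw [h.injective e] at hy
    exact disjoint_left.1 h1 (self_subset_cthickening K hx)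
      (closure_thickening_subset_cthickening δ D hy)

theorem split {m : ℕ} {L : Fin m → Set R3} (hn : Nonsplit L) (h : R3 ≃ₜ R3) (i j : Fin m)
    (h1 : ∀ x ∈ L i, ‖h x‖ < 1) (h2 : ∀ k, k ≠ i → ∀ x ∈ L k, 1 < ‖h x‖) (hij : j ≠ i)
    (n1 : (L i).Nonempty) (n2 : (L j).Nonempty) : False := by
  obtain ⟨x, hx⟩ := n1
  obtain ⟨y, hy⟩ := n2
  have hr : ∀ z, z ∈ range (fun u : sphere (0 : R3) 1 => h.symm u) ↔ ‖h z‖ = 1 := by
    intro z
    constructor
    · rintro ⟨u, rfl⟩
      simp
    · exact fun hz => ⟨⟨h z, by simpa using hz⟩, by simp⟩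
  have key := hn (fun u => h.symm u) (by fun_prop)
    (h.symm.injective.comp Subtype.val_injective) (fun k => disjoint_left.2 fun z hz hk => by
      rw [hr] at hz
      by_cases e : k = i
      · exact (h1 z (e ▸ hk)).ne hz
      · exact (h2 k e z hk).ne' hz) i j x hx y hy
  have hx' := mem_connectedComponentIn (F := (range fun u : sphere (0 : R3) 1 => h.symm u)ᶜ)
    (x := x) fun hz => (h1 x hx).ne ((hr x).1 hz)
  obtain ⟨z, hz, e⟩ := isPreconnected_connectedComponentIn.intermediate_value hx' key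
    (f := fun z => ‖h z‖) (by fun_prop) ⟨(h1 x hx).le, (h2 j hij y hy).le⟩
  exact connectedComponentIn_subset _ _ hz ((hr z).2 e)

end Book

open Book in
theorem low {N m : ℕ} {E : Type} [Finite E] (s t : E → Fin N) (h : ∀ e, s e ≠ t e) (hm : 2 ≤ m)
    (hI : ∀ Φ : Emb s t, Φ.Tame → Φ.Linked m) : 3 * m ≤ N := by
  obtain ⟨M, ⟨ι⟩⟩ := Finite.exists_equiv_fin E
  let key : E → ℕ := fun e => Nat.pair (min (s e : ℕ) (t e)) (max (s e : ℕ) (t e))
  let ν : E → ℕ := fun e => key e * (M + 1) + ι e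
  have hν : ∀ e k, k * (M + 1) ≤ ν e → ν e ≤ k * (M + 1) + M → key e = k := by
    intro e k h1 h2
    have := (ι e).2
    simp only [ν] at h1 h2
    rcases lt_trichotomy (key e) k with h3 | h3 | h3
    · nlinarith
    · exact h3
    · nlinarith
  have hi : Function.Injective fun e => (ν e : ℝ) := by
    intro e e' he
    have h1 : ν e = ν e' := Nat.cast_injective (R := ℝ) he
    have h2 := hν e (key e') (by rw [h1]; exact Nat.le_add_right _ _)
      (by rw [h1]; exact Nat.add_le_add_left (ι e').2.le _)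
    simp only [ν, h2] at h1
    exact ι.injective (Fin.ext (by omega))
  obtain ⟨c, hc, hd, hn⟩ := hI (emb s t h _ hi) (tame s t h _ hi)
  have hst : ∀ i, ∀ e ∈ c i, s e ∈ (c i).map s ∧ t e ∈ (c i).map s := fun i e he =>
    ⟨List.mem_map_of_mem he, by
      rw [← List.mem_rotate (n := 1), ← (hc i).2.2]; exact List.mem_map_of_mem he⟩
  have h1 : ∀ i, 3 ≤ ((c i).map s).toFinset.card := by
    intro i
    rw [List.toFinset_card_of_nodup (hc i).2.1, List.length_map]
    by_contra h3
    obtain ⟨e, e', hl⟩ : ∃ e e', c i = [e, e'] := by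
      have h4 := hc i
      match c i, h4, h3 with
      | [], h4, _ => exact absurd rfl h4.1
      | [e], h4, _ => exact absurd (by simpa using h4.2.2.symm) (h e)
      | [e, e'], _, _ => exact ⟨e, e', rfl⟩
      | _ :: _ :: _ :: _, _, h3 => simp at h3
    have h4 := (hc i).2.2
    rw [hl] at h4
    obtain ⟨h5, h6⟩ : t e = s e' ∧ t e' = s e := by simpa using h4
    have hM : (0 : ℝ) < M := by exact_mod_cast (ι e).pos
    obtain ⟨j, hj⟩ : ∃ j : Fin m, j ≠ i := by
      have : Nontrivial (Fin m) := Fin.nontrivial_iff_two_le.2 hm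
      exact exists_ne i
    have ne : ∀ k, (⋃ e ∈ c k, range ((emb s t h _ hi).arc e)).Nonempty := fun k => by
      obtain ⟨a, ha⟩ := List.exists_mem_of_ne_nil _ (hc k).1
      exact ⟨_, mem_iUnion₂.2 ⟨a, ha, mem_range_self 0⟩⟩
    set S := shear (s e : ℕ) (t e : ℕ) ((key e * (M + 1) : ℕ) : ℝ) with hS
    have hin : ∀ x ∈ ⋃ e ∈ c i, range ((emb s t h _ hi).arc e),
        S x ∈ lens (s e : ℕ) (t e : ℕ) M := by
      intro x hx
      obtain ⟨a, ha, y, rfl⟩ := mem_iUnion₂.1 hx
      have h7 : key a = key e ∧ ∀ z, q (s e : ℕ) (t e : ℕ) z = q (s a : ℕ) (t a : ℕ) z := by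
        rw [hl] at ha
        simp only [List.mem_cons, List.not_mem_nil, or_false] at ha
        rcases ha with rfl | rfl
        · exact ⟨rfl, fun _ => rfl⟩
        · exact ⟨by simp only [key, h5, h6, min_comm, max_comm], fun z => by
            rw [h5, h6, q, q]; ring⟩
      have h8 := q_nonneg (s a : ℕ) (t a : ℕ) y
      have h9 : ((ι a : ℕ) : ℝ) ≤ M := by exact_mod_cast (ι a).2.le
      have h10 : (0 : ℝ) ≤ (ι a : ℕ) := Nat.cast_nonneg _
      simp [hS, shear, emb, lens, P, h7.2, h8, ν, h7.1]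
      constructor <;> nlinarith
    obtain ⟨g, g1, g2⟩ := sep (K := S '' ⋃ k ∈ {k | k ≠ i}, ⋃ e ∈ c k,
        range ((emb s t h _ hi).arc e)) (lens_convex (s e : ℕ) (t e : ℕ) hM.le) (lens_closed ..)
      (lens_bdd _ _ hM) (by obtain ⟨x, hx⟩ := ne i; exact ⟨_, hin x hx⟩)
      (((toFinite _).isCompact_biUnion fun k _ => (List.finite_toSet _).isCompact_biUnion
        fun a _ => isCompact_range (ContinuousMap.continuous _)).image S.continuous) (by
        rw [disjoint_left]
        rintro _ ⟨x, hx, rfl⟩ hL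
        obtain ⟨k, hk, hx⟩ := mem_iUnion₂.1 hx
        obtain ⟨a, ha, y, rfl⟩ := mem_iUnion₂.1 hx
        have hno : ∀ v, v = s a ∨ v = t a → v = s e ∨ v = t e → False := by
          intro v h1 h2
          have he : e ∈ c i := by simp [hl]
          refine hd hk (a := v) ?_ ?_
          · rcases h1 with rfl | rfl
            exacts [(hst k a ha).1, (hst k a ha).2]
          · rcases h2 with rfl | rfl
            exacts [(hst i e he).1, (hst i e he).2]
        simp [hS, shear, emb, lens, P] at hL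
        obtain ⟨l0, l1, l2⟩ := hL
        generalize ht (s a : ℕ) (t a : ℕ) y = z at *
        have l3 : 0 ≤ q (s e : ℕ) (t e : ℕ) z := nonneg_of_mul_nonneg_right (by linarith) hM
        rw [max_eq_right l3] at l0 l1 l2
        rw [sub_eq_zero] at l0
        rw [l0] at l1 l2
        rcases l3.eq_or_lt with l4 | l4
        · rcases q_zero l4.symm with l5 | l5 <;> rcases q_zero (l0.trans l4.symm) with l6 | l6
          · exact hno (s a) (Or.inl rfl) (Or.inl (Fin.ext (by exact_mod_cast l6.symm.trans l5)))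
          · exact hno (t a) (Or.inr rfl) (Or.inl (Fin.ext (by exact_mod_cast l6.symm.trans l5)))
          · exact hno (s a) (Or.inl rfl) (Or.inr (Fin.ext (by exact_mod_cast l6.symm.trans l5)))
          · exact hno (t a) (Or.inr rfl) (Or.inr (Fin.ext (by exact_mod_cast l6.symm.trans l5)))
        · have l5 : key a = key e := hν a _
            (by have : ((key e : ℝ) * (M + 1)) ≤ ν a := le_of_mul_le_mul_right (by linarith) l4
                exact_mod_cast this)
            (by have : (ν a : ℝ) ≤ key e * (M + 1) + M := le_of_mul_le_mul_right (by linarith) l4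
                exact_mod_cast this)
          obtain ⟨l6, l7⟩ := Nat.pair_eq_pair.1 l5
          refine hno (s a) (Or.inl rfl) ?_
          rw [Fin.ext_iff, Fin.ext_iff]
          omega)
    exact split hn (S.trans g) i j (fun x hx => g1 _ (hin x hx))
      (fun k hk x hx => g2 _ (mem_image_of_mem _ (mem_iUnion₂.2 ⟨k, hk, hx⟩))) hj (ne i) (ne j)
  have h2 : (Finset.univ.biUnion fun i => ((c i).map s).toFinset).card =
      ∑ i, ((c i).map s).toFinset.card :=
    Finset.card_biUnion fun i _ j _ hij => List.disjoint_toFinset_iff_disjoint.2 (hd hij)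
  have h3 := Finset.card_le_univ (Finset.univ.biUnion fun i => ((c i).map s).toFinset)
  have h4 : ∑ _i : Fin m, 3 ≤ ∑ i, ((c i).map s).toFinset.card := Finset.sum_le_sum fun i _ => h1 i
  simp only [Finset.sum_const, Finset.card_univ, Fintype.card_fin, smul_eq_mul] at h3 h4
  omega

end Pool.Agent.Lib.MP_4fe900_gt.DG
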