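import Pool.Agent.Lib.MP_4fe900_gt.St2
import Pool.Agent.Lib.MP_4fe900_gt.TL.Comb

/-!
The bridge.
-/

namespace Pool.Agent.Lib.MP_4fe900_gt

open Pool.Agent.TL

theorem brS : BrSt := by
  rintro n φ ψ ⟨a, b, c⟩ ⟨a0, b0, c0⟩ ⟨a', b', c'⟩ ⟨a1, b1, c1⟩ hn h1 h2
  simp only [tl, List.cons_append, List.nil_append, List.nodup_cons, List.mem_cons, Prod.mk.injEq,
    List.not_mem_nil, Fin.reduceEq, false_and, true_and, false_or, or_false, not_or] at hn
  obtain ⟨Z, cz, mz, vz⟩ := Comb.bridge0 (fun e => (φ e, ψ e)) (t := ![a, b, c])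
    (s := ![a0, b0, c0]) (t' := ![a', b', c']) (s' := ![a1, b1, c1])
    (fun i => by fin_cases i <;> simp <;> tauto) (fun i => by fin_cases i <;> simp <;> tauto)
    (fun i => by fin_cases i <;> simp <;> tauto)
    (by rw [Comb.val_prod]; exact h1) (by rw [Comb.val_prod]; exact h2)
  rw [Comb.val_prod] at vz
  refine ⟨Z, cz, fun x hx => ?_, congrArg Prod.fst vz, congrArg Prod.snd vz⟩
  simp only [List.mem_append]
  rcases mz x hx with (h | h) | (h | h)
  · exact Or.inl (Or.inl (Or.inl (Comb.mem_tri.2 h)))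
  · exact Or.inl (Or.inl (Or.inr (Comb.mem_tri.2 h)))
  · exact Or.inl (Or.inr (Comb.mem_tri.2 h))
  · exact Or.inr (Comb.mem_tri.2 h)

end Pool.Agent.Lib.MP_4fe900_gt
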