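import Pool.Agent.Lib.MP_4fe900_gt.St2

/-!
Counting related pairs from boxes.
-/

namespace Pool.Agent.Lib.MP_4fe900_gt

open Finset
open scoped Classical

theorem third (j j' : Fin 3) (h : j ≠ j') (i : Fin 3) : i = j ∨ i = j' ∨ i = -(j + j') := by
  revert j j' i; decide

theorem card_pow3 {X : Type} [Fintype X] (p : X → Prop) [DecidablePred p]
    [DecidablePred fun b : Fin 3 → X => ∀ j, p (b j)] :
    #{b : Fin 3 → X | ∀ j, p (b j)} = #{x | p x} ^ 3 := by
  have : ({b : Fin 3 → X | ∀ j, p (b j)} : Finset _) =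
      Fintype.piFinset fun _ : Fin 3 => ({x | p x} : Finset X) := by
    ext b; simp
  rw [this, Fintype.card_piFinset]; simp

theorem card_prod_filter {Y Z : Type} [Fintype Y] [Fintype Z] (p : Y × Z → Prop)
    [DecidablePred p] :
    #{q : Y × Z | p q} = ∑ z, #{y | p (y, z)} := by
  simp only [card_filter]
  rw [Fintype.sum_prod_type_right]

theorem card_prod_filter' {Y Z : Type} [Fintype Y] [Fintype Z] (p : Y × Z → Prop)
    [DecidablePred p] :
    #{q : Y × Z | p q} = ∑ y, #{z | p (y, z)} := by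
  simp only [card_filter]
  rw [Fintype.sum_prod_type]

/-- Many boxes inside a dense set of pairs. -/
theorem boxes {X : Type} [Fintype X] (P : Finset (X × X)) :
    #P ^ 9 ≤ Fintype.card X ^ 12 *
      #{q : (Fin 3 → X) × (Fin 3 → X) | ∀ j k, (q.1 j, q.2 k) ∈ P} := by
  have h1 : #P = ∑ x, #{y | (x, y) ∈ P} := by
    refine Eq.trans ?_ (card_prod_filter' (fun q : X × X => q ∈ P)); simp
  have h2 : ∑ x, #{y | (x, y) ∈ P} ^ 3 = ∑ c : Fin 3 → X, #{x | ∀ k, (x, c k) ∈ P} := by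
    refine Eq.trans ?_ (card_prod_filter (fun q : X × (Fin 3 → X) => ∀ k, (q.1, q.2 k) ∈ P))
    rw [card_prod_filter']
    exact sum_congr rfl fun x _ => (card_pow3 (fun y => (x, y) ∈ P)).symm
  have h3 : #{q : (Fin 3 → X) × (Fin 3 → X) | ∀ j k, (q.1 j, q.2 k) ∈ P} =
      ∑ c : Fin 3 → X, #{x | ∀ k, (x, c k) ∈ P} ^ 3 := by
    rw [card_prod_filter]
    exact sum_congr rfl fun c _ => card_pow3 (fun x => ∀ k, (x, c k) ∈ P)
  have a1 := pow_sum_le_card_mul_sum_pow (s := (univ : Finset X))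
    (f := fun x => #{y | (x, y) ∈ P}) (fun _ _ => Nat.zero_le _) 2
  have a2 := pow_sum_le_card_mul_sum_pow (s := (univ : Finset (Fin 3 → X)))
    (f := fun c => #{x | ∀ k, (x, c k) ∈ P}) (fun _ _ => Nat.zero_le _) 2
  simp only [card_univ, Nat.cast_id, Fintype.card_fun, Fintype.card_fin, Nat.reduceAdd] at a1 a2
  rw [← h1, h2] at a1
  rw [h3]
  calc #P ^ 9 = (#P ^ 3) ^ 3 := by ring
    _ ≤ (Fintype.card X ^ 2 * ∑ c : Fin 3 → X, #{x | ∀ k, (x, c k) ∈ P}) ^ 3 := by gcongr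
    _ = Fintype.card X ^ 6 * (∑ c : Fin 3 → X, #{x | ∀ k, (x, c k) ∈ P}) ^ 3 := by ring
    _ ≤ Fintype.card X ^ 6 * ((Fintype.card X ^ 3) ^ 2 *
        ∑ c : Fin 3 → X, #{x | ∀ k, (x, c k) ∈ P} ^ 3) := by gcongr
    _ = _ := by ring

theorem noninj {X : Type} [Fintype X] :
    #{b : Fin 3 → X | ¬Function.Injective b} ≤ 3 * Fintype.card X ^ 2 := by
  have key : ∀ i i' : Fin 3, i ≠ i' → #{b : Fin 3 → X | b i = b i'} ≤ Fintype.card X ^ 2 := by
    intro i i' h
    have : Fintype.card X ^ 2 = #(univ : Finset (X × X)) := by simp [sq]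
    rw [this]
    refine card_le_card_of_injOn (fun b => (b i, b (-(i + i')))) (by simp) ?_
    intro b hb b' hb' e
    simp only [coe_filter, mem_univ, true_and, Set.mem_ofPred_eq, Prod.mk.injEq] at hb hb' e
    funext l
    rcases third i i' h l with rfl | rfl | rfl
    exacts [e.1, hb ▸ hb' ▸ e.1, e.2]
  have sub : ({b : Fin 3 → X | ¬Function.Injective b} : Finset _) ⊆
      ({b : Fin 3 → X | b 0 = b 1} : Finset _) ∪ ({b : Fin 3 → X | b 0 = b 2} : Finset _) ∪
        ({b : Fin 3 → X | b 1 = b 2} : Finset _) := by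
    intro b hb
    simp only [mem_filter, mem_univ, true_and, mem_union] at hb ⊢
    by_contra hc
    push Not at hc
    refine hb fun i j e => ?_
    fin_cases i <;> fin_cases j <;> simp_all [eq_comm]
  have := card_le_card sub
  have u1 := card_union_le (({b : Fin 3 → X | b 0 = b 1} : Finset _) ∪
    ({b : Fin 3 → X | b 0 = b 2} : Finset _)) ({b : Fin 3 → X | b 1 = b 2} : Finset _)
  have u2 := card_union_le ({b : Fin 3 → X | b 0 = b 1} : Finset _)
    ({b : Fin 3 → X | b 0 = b 2} : Finset _)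
  have := key 0 1 (by decide); have := key 0 2 (by decide); have := key 1 2 (by decide)
  omega

/-- Related pairs between two points over a dense set of pairs. -/
theorem boxB {X : Type} [Fintype X] (R : X × X × X → X × X × X → Prop) (h : Box R) (v v' : X)
    (hv : v ≠ v') (P : Finset (X × X)) :
    #P ^ 9 ≤ Fintype.card X ^ 12 * (36 * Fintype.card X ^ 2 *
      #{q ∈ P ×ˢ P | R (v, q.1) (v', q.2) ∧ q.1.1 ≠ q.2.1 ∧ q.1.2 ≠ q.2.2} +
      6 * Fintype.card X ^ 5) := by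
  refine (boxes P).trans (Nat.mul_le_mul_left _ ?_)
  set Q : Finset ((X × X) × (X × X)) :=
    {q ∈ P ×ˢ P | R (v, q.1) (v', q.2) ∧ q.1.1 ≠ q.2.1 ∧ q.1.2 ≠ q.2.2}
  let I : Finset ((Fin 3 × Fin 3) × (Fin 3 × Fin 3)) := {i | i.1.1 ≠ i.1.2 ∧ i.2.1 ≠ i.2.2}
  let S : (Fin 3 × Fin 3) × (Fin 3 × Fin 3) → Finset ((Fin 3 → X) × (Fin 3 → X)) := fun i =>
    {q | ((q.1 i.1.1, q.2 i.2.1), (q.1 i.1.2, q.2 i.2.2)) ∈ Q}
  let D : Finset (Fin 3 → X) := {b | ¬Function.Injective b}
  have hI : #I = 36 := by simp only [I]; convert (by decide : #({i | i.1.1 ≠ i.1.2 ∧ i.2.1 ≠ i.2.2} :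
    Finset ((Fin 3 × Fin 3) × (Fin 3 × Fin 3))) = 36)
  have hS : ∀ i ∈ I, #(S i) ≤ Fintype.card X ^ 2 * #Q := by
    intro i hi
    simp only [I, mem_filter, mem_univ, true_and] at hi
    have : Fintype.card X ^ 2 * #Q = #((univ : Finset (X × X)) ×ˢ Q) := by simp [sq]
    rw [this]
    refine card_le_card_of_injOn (fun q => ((q.1 (-(i.1.1 + i.1.2)), q.2 (-(i.2.1 + i.2.2))),
      ((q.1 i.1.1, q.2 i.2.1), (q.1 i.1.2, q.2 i.2.2)))) ?_ ?_
    · intro q hq
      simpa [S] using hq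
    · intro q _ q' _ e
      simp only [Prod.mk.injEq] at e
      refine Prod.ext (funext fun l => ?_) (funext fun l => ?_)
      · rcases third _ _ hi.1 l with rfl | rfl | rfl
        exacts [e.2.1.1, e.2.2.1, e.1.1]
      · rcases third _ _ hi.2 l with rfl | rfl | rfl
        exacts [e.2.1.2, e.2.2.2, e.1.2]
  have sub : ({q : (Fin 3 → X) × (Fin 3 → X) | ∀ j k, (q.1 j, q.2 k) ∈ P} : Finset _) ⊆
      I.biUnion S ∪ (D ×ˢ univ ∪ univ ×ˢ D) := by
    intro q hq
    simp only [mem_filter, mem_univ, true_and] at hq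
    by_cases h1 : Function.Injective q.1
    · by_cases h2 : Function.Injective q.2
      · obtain ⟨j, j', k, k', hj, hk, hR⟩ := h v v' q.1 q.2 hv h1 h2
        refine mem_union_left _ (mem_biUnion.2 ⟨((j, j'), (k, k')), by simp [I, hj, hk], ?_⟩)
        simp only [S, Q, mem_filter, mem_univ, true_and, mem_product]
        exact ⟨⟨hq _ _, hq _ _⟩, hR, h1.ne hj, h2.ne hk⟩
      · simp [D, h2]
    · simp [D, h1]
  have hD : #D ≤ 3 * Fintype.card X ^ 2 := noninj
  have b1 : #(I.biUnion S) ≤ #I * (Fintype.card X ^ 2 * #Q) := card_biUnion_le_card_mul _ _ _ hS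
  have b2 : #(D ×ˢ (univ : Finset (Fin 3 → X)) ∪ univ ×ˢ D) ≤ 6 * Fintype.card X ^ 5 := by
    refine (card_union_le _ _).trans ?_
    simp only [card_product, card_univ, Fintype.card_fun, Fintype.card_fin]
    calc _ ≤ 3 * Fintype.card X ^ 2 * Fintype.card X ^ 3 +
        Fintype.card X ^ 3 * (3 * Fintype.card X ^ 2) := by gcongr
      _ = _ := by ring
  refine (card_le_card sub).trans ((card_union_le _ _).trans (Nat.add_le_add ?_ b2))
  rw [hI] at b1
  exact b1.trans (le_of_eq (by ring))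

end Pool.Agent.Lib.MP_4fe900_gt
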