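import Mathlib

/-!
Digraphs with multiple edges, their spatial embeddings and intrinsic linking.
-/

namespace Pool.Agent.Lib.MP_4fe900_gt.DG

open Set

/-- three-space -/
abbrev R3 := EuclideanSpace ℝ (Fin 3)

variable {V E : Type}

/-- A spatial embedding of the digraph in which the edge `e` points from `s e` to `t e`. -/
structure Emb (s t : E → V) where
  /-- the points -/
  pt : V → R3
  /-- the arcs -/
  arc : E → C(unitInterval, R3)
  pt_inj : Function.Injective pt
  src : ∀ e, arc e 0 = pt (s e)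
  tgt : ∀ e, arc e 1 = pt (t e)
  arc_inj : ∀ e, Function.Injective (arc e)
  arc_pt : ∀ e v x, arc e x = pt v → v = s e ∨ v = t e
  meet : ∀ e e' x y, e ≠ e' → arc e x = arc e' y → ∃ v, arc e x = pt v

/-- A consistently oriented cycle, as the list of its edges. -/
def IsCyc (s t : E → V) (l : List E) : Prop :=
  l ≠ [] ∧ (l.map s).Nodup ∧ l.map t = (l.map s).rotate 1

/-- Every embedded sphere that misses the link has the whole link on one side. -/
def Nonsplit {m : ℕ} (L : Fin m → Set R3) : Prop :=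
  ∀ f : Metric.sphere (0 : R3) 1 → R3, Continuous f → Function.Injective f →
    (∀ i, Disjoint (range f) (L i)) →
    ∀ i j, ∀ x ∈ L i, ∀ y ∈ L j, y ∈ connectedComponentIn (range f)ᶜ x

/-- Every arc is tame: a homeomorphism of space carries it onto a straight segment. -/
def Emb.Tame {s t : E → V} (Φ : Emb s t) : Prop :=
  ∀ e, ∃ (h : R3 ≃ₜ R3) (p q : R3), h '' range (Φ.arc e) = segment ℝ p q

/-- Some `m` disjoint consistently oriented cycles form a nonsplit link. -/
def Emb.Linked {s t : E → V} (Φ : Emb s t) (m : ℕ) : Prop :=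
  ∃ c : Fin m → List E, (∀ i, IsCyc s t (c i)) ∧
    (Pairwise fun i j => ((c i).map s).Disjoint ((c j).map s)) ∧
    Nonsplit fun i => ⋃ e ∈ c i, range (Φ.arc e)

/-- Tournaments. -/
def Tour (s t : E → V) : Prop :=
  (∀ e, s e ≠ t e) ∧ ∀ a b, a ≠ b → ∃! e, (s e = a ∧ t e = b) ∨ (s e = b ∧ t e = a)

end Pool.Agent.Lib.MP_4fe900_gt.DG
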