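import Mathlib

/-!
Spatial embeddings of digraphs, consistently oriented cycles and nonsplit links.
-/

namespace Pool.Agent.Lib.MP_4fe900_gt

open Set

/-- three-space -/
abbrev R3 := EuclideanSpace ℝ (Fin 3)

/-- A spatial embedding of the digraph with an edge from `a` to `b` when `r a b`. -/
structure Emb {V : Type} (r : V → V → Prop) where
  /-- the points -/
  pt : V → R3
  /-- the arcs -/
  arc : V → V → C(unitInterval, R3)
  pt_inj : Function.Injective pt
  src : ∀ a b, r a b → arc a b 0 = pt a
  tgt : ∀ a b, r a b → arc a b 1 = pt b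
  arc_inj : ∀ a b, r a b → Function.Injective (arc a b)
  arc_pt : ∀ a b v t, r a b → arc a b t = pt v → v = a ∨ v = b
  meet : ∀ a b c d s t, r a b → r c d → (a, b) ≠ (c, d) → arc a b s = arc c d t →
    ∃ v, arc a b s = pt v

/-- The cyclically consecutive pairs of a list. -/
def arcs {V : Type} (l : List V) : List (V × V) := l.zip (l.rotate 1)

/-- A consistently oriented cycle, as the list of its vertices. -/
def IsCyc {V : Type} (r : V → V → Prop) (l : List V) : Prop :=
  l ≠ [] ∧ l.Nodup ∧ ∀ e ∈ arcs l, r e.1 e.2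

/-- The closed curve of a cycle. -/
def Emb.img {V : Type} {r : V → V → Prop} (E : Emb r) (l : List V) : Set R3 :=
  ⋃ e ∈ arcs l, range (E.arc e.1 e.2)

/-- Every embedded sphere that misses the link has the whole link on one side. -/
def Nonsplit {m : ℕ} (L : Fin m → Set R3) : Prop :=
  ∀ f : Metric.sphere (0 : R3) 1 → R3, Continuous f → Function.Injective f →
    (∀ i, Disjoint (range f) (L i)) →
    ∀ i j, ∀ x ∈ L i, ∀ y ∈ L j, y ∈ connectedComponentIn (range f)ᶜ x

/-- Intrinsically `m`-linked digraphs. -/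
def InL {V : Type} (r : V → V → Prop) (m : ℕ) : Prop :=
  ∀ E : Emb r, ∃ c : Fin m → List V, (∀ i, IsCyc r (c i)) ∧
    (Pairwise fun i j => (c i).Disjoint (c j)) ∧ Nonsplit fun i => E.img (c i)

/-- Tournaments. -/
def Tour {V : Type} (r : V → V → Prop) : Prop :=
  (∀ a b, r a b → ¬r b a) ∧ ∀ a b, a ≠ b → r a b ∨ r b a

end Pool.Agent.Lib.MP_4fe900_gt
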