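import Pool.Agent.Lib.MP_4fe900_gt.St2

/-!
A perfect matching in a three-partite family of triples with few exceptions through every point.
-/

namespace Pool.Agent.Lib.MP_4fe900_gt

open Finset
open scoped Classical

/-- Two triples without a common point. -/
def Dis {X : Type} (T T' : X × X × X) : Prop := T.1 ≠ T'.1 ∧ T.2.1 ≠ T'.2.1 ∧ T.2.2 ≠ T'.2.2

theorem Dis.symm {X : Type} {T T' : X × X × X} (h : Dis T T') : Dis T' T :=
  ⟨h.1.symm, h.2.1.symm, h.2.2.symm⟩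

/-- A matching inside `H` that avoids `A`, `B`, `C`. -/
def Mat {X : Type} (H : Finset (X × X × X)) (A B C : Finset X) (M : Finset (X × X × X)) : Prop :=
  (∀ T ∈ M, T ∈ H ∧ T.1 ∉ A ∧ T.2.1 ∉ B ∧ T.2.2 ∉ C) ∧ ∀ T ∈ M, ∀ T' ∈ M, T ≠ T' → Dis T T'

theorem Mat.ins {X : Type} {H : Finset (X × X × X)} {A B C : Finset X} {M : Finset (X × X × X)}
    (h : Mat H A B C M) {T : X × X × X} (hT : T ∈ H ∧ T.1 ∉ A ∧ T.2.1 ∉ B ∧ T.2.2 ∉ C)
    (hd : ∀ S ∈ M, Dis S T) : Mat H A B C (insert T M) ∧ #(insert T M) = #M + 1 := by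
  refine ⟨⟨fun S hS => ?_, fun S hS S' hS' ne => ?_⟩, card_insert_of_notMem fun hm => ?_⟩
  · rcases mem_insert.1 hS with rfl | hS
    exacts [hT, h.1 S hS]
  · rcases mem_insert.1 hS with e | m <;> rcases mem_insert.1 hS' with e' | m'
    exacts [absurd (e.trans e'.symm) ne, e ▸ (hd _ m').symm, e' ▸ hd _ m, h.2 _ m _ m' ne]
  · exact (hd T hm).1 rfl

theorem free_card {X : Type} [Fintype X] (A : Finset X) (M : Finset (X × X × X))
    (f : X × X × X → X) : Fintype.card X ≤ #(A ∪ M.image f)ᶜ + #A + #M := by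
  have h1 := card_compl_add_card (A ∪ M.image f)
  have h2 := card_union_le A (M.image f)
  have h3 : #(M.image f) ≤ #M := card_image_le
  omega

theorem offDiag_bad {X : Type} [Fintype X] (M : Finset (X × X × X)) (f g : X × X × X → X)
    (hf : Set.InjOn f M) (hg : Set.InjOn g M) (P : X × X → Prop) [DecidablePred P] :
    #{q ∈ M.offDiag | P (f q.1, g q.2)} ≤ #{p : X × X | P p} := by
  refine card_le_card_of_injOn (fun q => (f q.1, g q.2)) (fun q hq => ?_) fun q hq q' hq' e => ?_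
  · simpa using (mem_filter.1 hq).2
  · have h1 := mem_offDiag.1 (mem_filter.1 hq).1
    have h2 := mem_offDiag.1 (mem_filter.1 hq').1
    exact Prod.ext (hf h1.1 h2.1 (congrArg Prod.fst e)) (hg h1.2.1 h2.2.1 (congrArg Prod.snd e))

theorem pm {X : Type} [Fintype X] (H : Finset (X × X × X)) (A B C : Finset X)
    (hn : 20 ≤ Fintype.card X)
    (t1 : ∀ v ∉ A, 100 * #{p : X × X | (v, p.1, p.2) ∉ H} ≤ Fintype.card X ^ 2)
    (t2 : ∀ v ∉ B, 100 * #{p : X × X | (p.2, v, p.1) ∉ H} ≤ Fintype.card X ^ 2)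
    (t3 : ∀ v ∉ C, 100 * #{p : X × X | (p.1, p.2, v) ∉ H} ≤ Fintype.card X ^ 2)
    (hB : #A = #B) (hC : #A = #C) (hA : 2 * #A ≤ Fintype.card X) :
    ∃ M, Mat H A B C M ∧ #M + #A = Fintype.card X := by
  obtain ⟨M, hM, hmax⟩ := exists_max_image (univ.filter (Mat H A B C)) card
    ⟨∅, by simp [Mat]⟩
  replace hM := (mem_filter.1 hM).2
  replace hmax : ∀ M', Mat H A B C M' → #M' ≤ #M := fun M' h => hmax M' (by simpa using h)
  have i1 : Set.InjOn (fun T : X × X × X => T.1) M := fun T h T' h' e => by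
    by_contra ne
    exact (hM.2 T h T' h' ne).1 e
  have i2 : Set.InjOn (fun T : X × X × X => T.2.1) M := fun T h T' h' e => by
    by_contra ne
    exact (hM.2 T h T' h' ne).2.1 e
  have i3 : Set.InjOn (fun T : X × X × X => T.2.2) M := fun T h T' h' e => by
    by_contra ne
    exact (hM.2 T h T' h' ne).2.2 e
  refine ⟨M, hM, le_antisymm ?_ ?_⟩
  · rw [← card_image_of_injOn i1, ← card_union_of_disjoint]
    · exact card_le_univ _
    · rw [disjoint_left]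
      intro a ha
      obtain ⟨T, hT, rfl⟩ := mem_image.1 ha
      exact (hM.1 T hT).2.1
  by_contra hlt
  have f1 := free_card A M fun T => T.1
  have f2 := free_card B M fun T => T.2.1
  have f3 := free_card C M fun T => T.2.2
  set n := Fintype.card X with hn'
  have mem : ∀ (D : Finset X) (f : X × X × X → X) (x : X), x ∈ (D ∪ M.image f)ᶜ →
      x ∉ D ∧ ∀ S ∈ M, f S ≠ x := fun D f x hx => by
    simp only [mem_compl, mem_union, mem_image, not_or, not_exists, not_and] at hx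
    exact hx
  obtain ⟨a, ha⟩ : ((A ∪ M.image fun T => T.1)ᶜ).Nonempty := card_pos.1 (by omega)
  replace ha := mem _ _ _ ha
  by_cases hs : 4 * #M < n
  · have : ¬(((B ∪ M.image fun T => T.2.1)ᶜ) ×ˢ ((C ∪ M.image fun T => T.2.2)ᶜ) ⊆
        ({p : X × X | (a, p.1, p.2) ∉ H} : Finset _)) := fun hsub => by
      have h1 := card_le_card hsub
      have h2 := t1 a ha.1
      rw [card_product] at h1
      generalize #(B ∪ M.image fun T => T.2.1)ᶜ = x at *
      generalize #(C ∪ M.image fun T => T.2.2)ᶜ = y at *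
      have h3 : n + 1 ≤ 4 * x := by omega
      have h4 : n + 1 ≤ 4 * y := by omega
      have h5 := Nat.mul_le_mul h3 h4
      have h6 : 100 * (x * y) ≤ n ^ 2 := by omega
      clear * - h5 h6
      nlinarith
    obtain ⟨p, hp, hp'⟩ := not_subset.1 this
    have hb := mem _ _ _ (mem_product.1 hp).1
    have hc := mem _ _ _ (mem_product.1 hp).2
    have := hM.ins (T := (a, p.1, p.2)) ⟨by simpa using hp', ha.1, hb.1, hc.1⟩
      fun S hS => ⟨ha.2 S hS, hb.2 S hS, hc.2 S hS⟩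
    have := hmax _ this.1
    omega
  obtain ⟨b, hb⟩ : ((B ∪ M.image fun T => T.2.1)ᶜ).Nonempty := card_pos.1 (by omega)
  obtain ⟨c, hc⟩ : ((C ∪ M.image fun T => T.2.2)ᶜ).Nonempty := card_pos.1 (by omega)
  replace hb := mem _ _ _ hb
  replace hc := mem _ _ _ hc
  have b1 : #{q ∈ M.offDiag | (a, q.1.2.1, q.2.2.2) ∉ H} ≤ #{p : X × X | (a, p.1, p.2) ∉ H} :=
    offDiag_bad M _ _ i2 i3 fun p => (a, p.1, p.2) ∉ H
  have b2 : #{q ∈ M.offDiag | (q.2.1, b, q.1.2.2) ∉ H} ≤ #{p : X × X | (p.2, b, p.1) ∉ H} :=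
    offDiag_bad M _ _ i3 i1 fun p => (p.2, b, p.1) ∉ H
  have b3 : #{q ∈ M.offDiag | (q.1.1, q.2.2.1, c) ∉ H} ≤ #{p : X × X | (p.1, p.2, c) ∉ H} :=
    offDiag_bad M _ _ i1 i2 fun p => (p.1, p.2, c) ∉ H
  have : ∃ q ∈ M.offDiag, (a, q.1.2.1, q.2.2.2) ∈ H ∧ (q.2.1, b, q.1.2.2) ∈ H ∧
      (q.1.1, q.2.2.1, c) ∈ H := by
    by_contra hno
    have hsub : M.offDiag ⊆ {q ∈ M.offDiag | (a, q.1.2.1, q.2.2.2) ∉ H} ∪
        {q ∈ M.offDiag | (q.2.1, b, q.1.2.2) ∉ H} ∪ {q ∈ M.offDiag | (q.1.1, q.2.2.1, c) ∉ H} := by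
      intro q hq
      simp only [mem_union, mem_filter, hq, true_and]
      by_contra h
      simp only [not_or, not_not] at h
      exact hno ⟨q, hq, h.1.1, h.1.2, h.2⟩
    have h1 := (card_le_card hsub).trans ((card_union_le _ _).trans
      (Nat.add_le_add_right (card_union_le _ _) _))
    have h2 := t1 a ha.1
    have h3 := t2 b hb.1
    have h4 := t3 c hc.1
    rw [offDiag_card] at h1
    have h5 : 100 * (#M * #M - #M) ≤ 3 * n ^ 2 := by omega
    obtain ⟨k, hk⟩ : ∃ k, #M = k + 1 := ⟨#M - 1, by omega⟩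
    have h6 : #M * #M - #M = (k + 1) * k := by
      rw [hk]
      exact Nat.sub_eq_of_eq_add (by ring)
    have h7 : n ^ 2 ≤ (4 * (k + 1)) ^ 2 := Nat.pow_le_pow_left (by omega) 2
    have h8 : 4 ≤ k := by omega
    have h9 : 100 * ((k + 1) * k) ≤ 3 * (4 * (k + 1)) ^ 2 := by omega
    clear * - h8 h9
    nlinarith
  obtain ⟨⟨x, y⟩, hq, g1, g2, g3⟩ := this
  obtain ⟨hx, hy, hxy⟩ := mem_offDiag.1 hq
  simp only at hx hy hxy g1 g2 g3
  have dxy := hM.2 x hx y hy hxy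
  have m0 : Mat H A B C ((M.erase x).erase y) :=
    ⟨fun T hT => hM.1 T (mem_of_mem_erase (mem_of_mem_erase hT)), fun T hT T' hT' =>
      hM.2 T (mem_of_mem_erase (mem_of_mem_erase hT)) T' (mem_of_mem_erase (mem_of_mem_erase hT'))⟩
  have c0 : #((M.erase x).erase y) + 2 = #M := by
    have h1 := card_erase_add_one hx
    have h2 := card_erase_add_one (mem_erase.2 ⟨hxy.symm, hy⟩ : y ∈ M.erase x)
    omega
  have d0 : ∀ S ∈ (M.erase x).erase y, S ∈ M ∧ Dis S x ∧ Dis S y := fun S hS => by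
    have h1 := mem_erase.1 hS
    have h2 := mem_erase.1 h1.2
    exact ⟨h2.2, hM.2 S h2.2 x hx h2.1, hM.2 S h2.2 y hy h1.1⟩
  have px := hM.1 x hx
  have py := hM.1 y hy
  have m1 := m0.ins (T := (a, x.2.1, y.2.2)) ⟨g1, ha.1, px.2.2.1, py.2.2.2⟩ fun S hS =>
    ⟨ha.2 S (d0 S hS).1, (d0 S hS).2.1.2.1, (d0 S hS).2.2.2.2⟩
  have m2 := m1.1.ins (T := (y.1, b, x.2.2)) ⟨g2, py.2.1, hb.1, px.2.2.2⟩ fun S hS => by
    rcases mem_insert.1 hS with rfl | hS
    · exact ⟨(ha.2 y hy).symm, hb.2 x hx, dxy.2.2.symm⟩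
    · exact ⟨(d0 S hS).2.2.1, hb.2 S (d0 S hS).1, (d0 S hS).2.1.2.2⟩
  have m3 := m2.1.ins (T := (x.1, y.2.1, c)) ⟨g3, px.2.1, py.2.2.1, hc.1⟩ fun S hS => by
    rcases mem_insert.1 hS with rfl | hS
    · exact ⟨dxy.1.symm, (hb.2 y hy).symm, hc.2 x hx⟩
    rcases mem_insert.1 hS with rfl | hS
    · exact ⟨(ha.2 x hx).symm, dxy.2.1, hc.2 y hy⟩
    · exact ⟨(d0 S hS).2.1.1, (d0 S hS).2.2.2.1, hc.2 S (d0 S hS).1⟩
  have := hmax _ m3.1
  omega

theorem pmS : PMSt := by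
  intro n H A B C hn ht hB hC hA
  obtain ⟨M, hM, hc⟩ := pm H A B C (by simpa using hn) (fun v _ => (ht v).1)
    (fun v _ => (ht v).2.1) (fun v _ => (ht v).2.2) hB hC (by simpa using hA)
  refine ⟨M.toList, by simpa using hc, fun T hT => hM.1 T (mem_toList.1 hT), ?_⟩
  exact (nodup_toList M).pairwise_of_forall_ne fun T hT T' hT' ne =>
    hM.2 T (mem_toList.1 hT) T' (mem_toList.1 hT') ne

end Pool.Agent.Lib.MP_4fe900_gt
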