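import Pool.Agent.Lib.MP_4fe900_gt.Cnt
import Pool.Agent.Lib.MP_4fe900_gt.PM

/-!
Many related pairs between a dense set of triples and its dense complement.
-/

namespace Pool.Agent.Lib.MP_4fe900_gt

open Finset
open scoped Classical

variable {X : Type} [Fintype X]

/-- The related disjoint pairs between two sets of triples. -/
noncomputable def prs (R : X × X × X → X × X × X → Prop) (S S' : Finset (X × X × X)) :
    Finset ((X × X × X) × (X × X × X)) :=
  {q | q.1 ∈ S ∧ q.2 ∈ S' ∧ R q.1 q.2 ∧ Dis q.1 q.2}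

/-- The steps from `S` to `S'` in one direction. -/
noncomputable def stp (f : X × X × X → X × X × X) (S S' : Finset (X × X × X)) :
    Finset ((X × X) × (X × X)) :=
  {z | z.1.1 ≠ z.1.2 ∧ f (z.1.1, z.2) ∈ S ∧ f (z.1.2, z.2) ∈ S'}

theorem dir (R : X × X × X → X × X × X → Prop) (f : X × X × X → X × X × X)
    (hf : Function.Injective f) (hd : ∀ x y, Dis x y → Dis (f x) (f y))
    (h : Box fun x y => R (f x) (f y)) (S S' : Finset (X × X × X)) :
    #(stp f S S') ^ 9 ≤ Fintype.card X ^ 28 *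
      (36 * Fintype.card X ^ 2 * #(prs R S S') + 6 * Fintype.card X ^ 7) := by
  set n := Fintype.card X with hn
  let e : X × X → ℕ := fun v => #{q : (X × X) × (X × X) | f (v.1, q.1) ∈ S ∧ f (v.2, q.2) ∈ S' ∧
    R (f (v.1, q.1)) (f (v.2, q.2)) ∧ Dis (v.1, q.1) (v.2, q.2)}
  have h1 : ∑ v, e v ≤ #(prs R S S') := by
    refine (card_prod_filter' (fun z : (X × X) × ((X × X) × (X × X)) => f (z.1.1, z.2.1) ∈ S ∧
      f (z.1.2, z.2.2) ∈ S' ∧ R (f (z.1.1, z.2.1)) (f (z.1.2, z.2.2)) ∧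
      Dis (z.1.1, z.2.1) (z.1.2, z.2.2))).symm.le.trans ?_
    refine card_le_card_of_injOn (fun z => (f (z.1.1, z.2.1), f (z.1.2, z.2.2))) (fun z hz => ?_)
      fun z _ z' _ e => ?_
    · have := (mem_filter.1 hz).2
      exact mem_filter.2 ⟨mem_univ _, this.1, this.2.1, this.2.2.1, hd _ _ this.2.2.2⟩
    · have e1 := hf (congrArg Prod.fst e)
      have e2 := hf (congrArg Prod.snd e)
      simp only [Prod.mk.injEq] at e1 e2
      exact Prod.ext (Prod.ext e1.1 e2.1) (Prod.ext e1.2 e2.2)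
  let P : X × X → Finset (X × X) := fun v => {p | v.1 ≠ v.2 ∧ f (v.1, p) ∈ S ∧ f (v.2, p) ∈ S'}
  have h2 : #(stp f S S') = ∑ v, #(P v) := card_prod_filter' _
  have h3 : ∀ v, #(P v) ^ 9 ≤ n ^ 12 * (36 * n ^ 2 * e v + 6 * n ^ 5) := fun v => by
    by_cases hv : v.1 = v.2
    · have : P v = ∅ := by simp [P, hv]
      simp [this]
    refine (boxB _ h v.1 v.2 hv (P v)).trans (Nat.mul_le_mul_left _ (Nat.add_le_add_right
      (Nat.mul_le_mul_left _ (card_le_card fun q hq => ?_)) _))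
    obtain ⟨hq, hq'⟩ := mem_filter.1 hq
    obtain ⟨q1, q2⟩ := mem_product.1 hq
    exact mem_filter.2 ⟨mem_univ _, (mem_filter.1 q1).2.2.1, (mem_filter.1 q2).2.2.2, hq'.1, hv,
      hq'.2.1, hq'.2.2⟩
  have h4 := pow_sum_le_card_mul_sum_pow (s := univ) (f := fun v => #(P v))
    (fun _ _ => Nat.zero_le _) 8
  have h5 : ∑ v, #(P v) ^ 9 ≤ n ^ 12 * (36 * n ^ 2 * #(prs R S S') + 6 * n ^ 7) := by
    refine (sum_le_sum fun v _ => h3 v).trans ?_
    rw [← mul_sum, sum_add_distrib, ← mul_sum, sum_const, card_univ, Fintype.card_prod, ← hn,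
      smul_eq_mul]
    exact Nat.mul_le_mul_left _ (Nat.add_le_add (Nat.mul_le_mul_left _ h1) (le_of_eq (by ring)))
  rw [card_univ, Fintype.card_prod, ← hn, Nat.cast_id, ← h2] at h4
  refine h4.trans ((Nat.mul_le_mul_left _ h5).trans (le_of_eq (by ring)))

theorem dir2 (R : X × X × X → X × X × X → Prop) (f : X × X × X → X × X × X)
    (hf : Function.Injective f) (hd : ∀ x y, Dis x y → Dis (f x) (f y))
    (h : Box fun x y => R (f x) (f y)) (S S' : Finset (X × X × X)) (k : ℕ)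
    (hk : Fintype.card X ^ 4 ≤ k * #(stp f S S')) (hn : 12 * k ^ 9 < Fintype.card X) :
    Fintype.card X ^ 6 ≤ 72 * k ^ 9 * #(prs R S S') := by
  have h1 := dir R f hf hd h S S'
  have h2 := Nat.pow_le_pow_left hk 9
  generalize Fintype.card X = n at *
  generalize #(prs R S S') = E at *
  rw [mul_pow] at h2
  generalize k ^ 9 = D at *
  have h3 : n ^ 30 * n ^ 6 ≤ n ^ 30 * (36 * D * E + 6 * D * n ^ 5) :=
    (le_of_eq (by ring)).trans (h2.trans ((Nat.mul_le_mul_left D h1).trans (le_of_eq (by ring))))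
  have h4 := Nat.le_of_mul_le_mul_left h3 (Nat.pow_pos (by omega))
  have h5 : 12 * D * n ^ 5 ≤ n ^ 6 :=
    (Nat.mul_le_mul_right _ hn.le).trans (le_of_eq (by ring))
  nlinarith

omit [Fintype X] in
theorem rot_inj : Function.Injective (rot : X × X × X → X × X × X) := fun x y e => by
  simp only [rot, Prod.mk.injEq] at e
  exact Prod.ext e.2.1 (Prod.ext e.2.2 e.1)

omit [Fintype X] in
theorem dis_rot {x y : X × X × X} : Dis (rot x) (rot y) ↔ Dis x y := by
  simp only [Dis, rot]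
  tauto

theorem walk (S : Finset (X × X × X)) :
    #S * #Sᶜ ≤ (#(stp id S Sᶜ) + #(stp rot S Sᶜ) + #(stp (fun x => rot (rot x)) S Sᶜ)) *
      Fintype.card X ^ 2 := by
  have hu : Fintype.card X ^ 2 = #(univ : Finset (X × X)) := by simp [sq]
  have hsub : S ×ˢ Sᶜ ⊆
      ({q | q.1 ∈ S ∧ (q.2.1, q.1.2.1, q.1.2.2) ∉ S} : Finset ((X × X × X) × (X × X × X))) ∪
      ({q | (q.2.1, q.1.2.1, q.1.2.2) ∈ S ∧ (q.2.1, q.2.2.1, q.1.2.2) ∉ S} :
        Finset ((X × X × X) × (X × X × X))) ∪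
      ({q | (q.2.1, q.2.2.1, q.1.2.2) ∈ S ∧ q.2 ∉ S} : Finset ((X × X × X) × (X × X × X))) := by
    intro q hq
    simp only [mem_product, mem_compl, mem_union, mem_filter, mem_univ, true_and] at hq ⊢
    tauto
  rw [← card_product, add_mul, add_mul, hu, ← card_product, ← card_product, ← card_product]
  refine (card_le_card hsub).trans ((card_union_le _ _).trans (Nat.add_le_add
    ((card_union_le _ _).trans (Nat.add_le_add ?_ ?_)) ?_))
  · refine card_le_card_of_injOn (fun q => (((q.1.1, q.2.1), q.1.2), q.2.2)) ?_ ?_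
    · rintro ⟨⟨a, b, c⟩, a', b', c'⟩ h
      simp only [coe_filter, mem_univ, true_and, Set.mem_ofPred_eq] at h
      simp only [stp, coe_product, coe_filter, mem_univ, true_and, mem_compl, coe_univ,
        Set.mem_prod, Set.mem_ofPred_eq, Set.mem_univ, and_true, id]
      exact ⟨fun e => h.2 (e ▸ h.1), h.1, h.2⟩
    · rintro ⟨⟨a, b, c⟩, a', b', c'⟩ - ⟨⟨x, y, z⟩, x', y', z'⟩ - e
      simp only [Prod.mk.injEq] at e ⊢
      tauto
  · refine card_le_card_of_injOn
      (fun q => (((q.1.2.1, q.2.2.1), (q.1.2.2, q.2.1)), (q.1.1, q.2.2.2))) ?_ ?_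
    · rintro ⟨⟨a, b, c⟩, a', b', c'⟩ h
      simp only [coe_filter, mem_univ, true_and, Set.mem_ofPred_eq] at h
      simp only [stp, coe_product, coe_filter, mem_univ, true_and, mem_compl, coe_univ,
        Set.mem_prod, Set.mem_ofPred_eq, Set.mem_univ, and_true, rot]
      exact ⟨fun e => h.2 (e ▸ h.1), h.1, h.2⟩
    · rintro ⟨⟨a, b, c⟩, a', b', c'⟩ - ⟨⟨x, y, z⟩, x', y', z'⟩ - e
      simp only [Prod.mk.injEq] at e ⊢
      tauto
  · refine card_le_card_of_injOn
      (fun q => (((q.1.2.2, q.2.2.2), (q.2.1, q.2.2.1)), (q.1.1, q.1.2.1))) ?_ ?_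
    · rintro ⟨⟨a, b, c⟩, a', b', c'⟩ h
      simp only [coe_filter, mem_univ, true_and, Set.mem_ofPred_eq] at h
      simp only [stp, coe_product, coe_filter, mem_univ, true_and, mem_compl, coe_univ,
        Set.mem_prod, Set.mem_ofPred_eq, Set.mem_univ, and_true, rot]
      exact ⟨fun e => h.2 (e ▸ h.1), h.1, h.2⟩
    · rintro ⟨⟨a, b, c⟩, a', b', c'⟩ - ⟨⟨x, y, z⟩, x', y', z'⟩ - e
      simp only [Prod.mk.injEq] at e ⊢
      tauto

/-- The three box properties. -/
def Box3 (R : X × X × X → X × X × X → Prop) : Prop :=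
  Box R ∧ Box (fun x y => R (rot x) (rot y)) ∧ Box fun x y => R (rot (rot x)) (rot (rot y))

theorem cross {R : X × X × X → X × X × X → Prop} (h : Box3 R) (S : Finset (X × X × X)) (K : ℕ)
    (h1 : Fintype.card X ^ 3 ≤ K * #S) (h2 : Fintype.card X ^ 3 ≤ K * #Sᶜ)
    (hn : 12 * (3 * K ^ 2) ^ 9 < Fintype.card X) :
    Fintype.card X ^ 6 ≤ 72 * (3 * K ^ 2) ^ 9 * #(prs R S Sᶜ) := by
  have h3 := walk S
  have h4 : Fintype.card X ^ 2 * Fintype.card X ^ 4 ≤ Fintype.card X ^ 2 * (K ^ 2 *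
      (#(stp id S Sᶜ) + #(stp rot S Sᶜ) + #(stp (fun x => rot (rot x)) S Sᶜ))) :=
    (le_of_eq (by ring)).trans ((Nat.mul_le_mul h1 h2).trans ((le_of_eq (by ring)).trans
      ((Nat.mul_le_mul_left (K ^ 2) h3).trans (le_of_eq (by ring)))))
  have h5 := Nat.le_of_mul_le_mul_left h4 (Nat.pow_pos (by omega))
  by_cases c1 : Fintype.card X ^ 4 ≤ 3 * K ^ 2 * #(stp id S Sᶜ)
  · exact dir2 R id Function.injective_id (fun _ _ h => h) h.1 _ _ _ c1 hn
  by_cases c2 : Fintype.card X ^ 4 ≤ 3 * K ^ 2 * #(stp rot S Sᶜ)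
  · exact dir2 R rot rot_inj (fun _ _ h => dis_rot.2 h) h.2.1 _ _ _ c2 hn
  refine dir2 R (fun x => rot (rot x)) (rot_inj.comp rot_inj)
    (fun _ _ h => dis_rot.2 (dis_rot.2 h)) h.2.2 _ _ _ ?_ hn
  nlinarith

theorem first {R : X × X × X → X × X × X → Prop} (h : Box R) (hn : 6144 < Fintype.card X) :
    Fintype.card X ^ 6 ≤ 36864 * #(prs R univ univ) := by
  refine dir2 R id Function.injective_id (fun _ _ h => h) h _ _ 2 ?_ hn
  have : stp id univ univ = (univ : Finset X).offDiag ×ˢ (univ : Finset (X × X)) := by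
    ext z
    simp [stp]
  rw [this, card_product, offDiag_card, card_univ, card_univ, Fintype.card_prod]
  generalize Fintype.card X = n at *
  obtain ⟨k, rfl⟩ : ∃ k, n = k + 2 := ⟨n - 2, by omega⟩
  have : (k + 2) * (k + 2) - (k + 2) = (k + 2) * (k + 1) := Nat.sub_eq_of_eq_add (by ring)
  rw [this]
  have : (k + 2) ^ 3 * (k + 2) ≤ (k + 2) ^ 3 * (2 * (k + 1)) := Nat.mul_le_mul_left _ (by omega)
  exact (le_of_eq (by ring)).trans (this.trans (le_of_eq (by ring)))

theorem pick (R : X × X × X → X × X × X → Prop) (S S' : Finset (X × X × X)) (M : ℕ)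
    (hn : 0 < Fintype.card X) (h : Fintype.card X ^ 6 ≤ M * #(prs R S S')) :
    ∃ y ∈ S', Fintype.card X ^ 3 ≤ M * #{x ∈ S | R x y ∧ Dis x y} := by
  have : Nonempty X := Fintype.card_pos_iff.1 hn
  have h1 : #(prs R S S') = ∑ y, #{x | x ∈ S ∧ y ∈ S' ∧ R x y ∧ Dis x y} := card_prod_filter _
  have h2 : ∑ _y : X × X × X, Fintype.card X ^ 3 ≤
      ∑ y, M * #{x | x ∈ S ∧ y ∈ S' ∧ R x y ∧ Dis x y} := by
    rw [← mul_sum, ← h1, sum_const, card_univ, Fintype.card_prod, Fintype.card_prod, smul_eq_mul]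
    exact (le_of_eq (by ring)).trans h
  obtain ⟨y, -, hy⟩ := exists_le_of_sum_le univ_nonempty h2
  by_cases hy' : y ∈ S'
  · refine ⟨y, hy', hy.trans (Nat.mul_le_mul_left _ (card_le_card fun x hx => ?_))⟩
    have := (mem_filter.1 hx).2
    exact mem_filter.2 ⟨this.1, this.2.2⟩
  · simp only [hy', false_and, and_false, filter_false, card_empty, mul_zero] at hy
    exact absurd hy (not_le.2 (Nat.pow_pos hn))

theorem meet_card (F : Finset (X × X × X)) :
    #{y : X × X × X | ¬∀ x ∈ F, Dis x y} ≤ 3 * #F * Fintype.card X ^ 2 := by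
  have hsub : ({y : X × X × X | ¬∀ x ∈ F, Dis x y} : Finset _) ⊆
      (F.image fun x => x.1) ×ˢ univ ∪ univ ×ˢ (F.image fun x => x.2.1) ×ˢ univ ∪
        univ ×ˢ univ ×ˢ (F.image fun x => x.2.2) := by
    intro y hy
    simp only [mem_filter, mem_univ, true_and, not_forall, Dis, not_and_or, not_not] at hy
    obtain ⟨x, hx, h⟩ := hy
    simp only [mem_union, mem_product, mem_image, mem_univ, and_true, true_and]
    rcases h with h | h | h
    exacts [Or.inl (Or.inl ⟨x, hx, h⟩), Or.inl (Or.inr ⟨x, hx, h⟩), Or.inr ⟨x, hx, h⟩]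
  refine (card_le_card hsub).trans ((card_union_le _ _).trans ((Nat.add_le_add_right
    (card_union_le _ _) _).trans ?_))
  simp only [card_product, card_univ, Fintype.card_prod]
  have h1 : #(F.image fun x => x.1) ≤ #F := card_image_le
  have h2 : #(F.image fun x => x.2.1) ≤ #F := card_image_le
  have h3 : #(F.image fun x => x.2.2) ≤ #F := card_image_le
  have k1 := Nat.mul_le_mul_right (Fintype.card X ^ 2) h1
  have k2 := Nat.mul_le_mul_right (Fintype.card X ^ 2) h2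
  have k3 := Nat.mul_le_mul_right (Fintype.card X ^ 2) h3
  nlinarith

end Pool.Agent.Lib.MP_4fe900_gt
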