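import Pool.Agent.Lib.MP_4fe900_gt.Ex1

/-!
For large `n` the cyclic blow-up of the directed triangle with classes of size `n` contains `n`
disjoint triangles with a connected linking graph.
-/

namespace Pool.Agent.Lib.MP_4fe900_gt

open Finset
open scoped Classical

/-- Connected families of disjoint triples. -/
inductive Ok {X : Type} (R : X × X × X → X × X × X → Prop) : Finset (X × X × X) → Prop
  | one (x : X × X × X) : Ok R {x}
  | add (F : Finset (X × X × X)) (y : X × X × X) : Ok R F → (∀ x ∈ F, Dis x y) →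
      (∃ x ∈ F, R y x) → Ok R (insert y F)

variable {X : Type} {R : X × X × X → X × X × X → Prop}

theorem Ok.dis {F : Finset (X × X × X)} (h : Ok R F) : ∀ x ∈ F, ∀ y ∈ F, x ≠ y → Dis x y := by
  induction h with
  | one x => simp
  | add F y _ hd _ ih =>
    intro S hS S' hS' ne
    rcases mem_insert.1 hS with e | m <;> rcases mem_insert.1 hS' with e' | m'
    exacts [absurd (e.trans e'.symm) ne, e ▸ (hd _ m').symm, e' ▸ hd _ m, ih _ m _ m' ne]

theorem Ok.seq {F : Finset (X × X × X)} (h : Ok R F) : ∃ c : ℕ → X × X × X,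
    (∀ i < #F, c i ∈ F) ∧ (∀ j < #F, ∀ i < j, Dis (c i) (c j)) ∧
      ∀ i < #F, i ≠ 0 → ∃ j < i, R (c i) (c j) ∧ True := by
  suffices H : ∃ c : ℕ → X × X × X, (∀ x ∈ F, ∃ i < #F, c i = x) ∧
      (∀ i < #F, c i ∈ F) ∧ (∀ j < #F, ∀ i < j, Dis (c i) (c j)) ∧
      ∀ i < #F, i ≠ 0 → ∃ j < i, R (c i) (c j) ∧ True by
    obtain ⟨c, -, hc⟩ := H
    exact ⟨c, hc⟩
  induction h with
  | one x => exact ⟨fun _ => x, by simp, by simp, by simp, by simp⟩
  | add F y _ hd hr ih =>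
    obtain ⟨c, h0, h1, h2, h3⟩ := ih
    have hy : y ∉ F := fun hm => (hd y hm).1 rfl
    have e : ∀ i < #F, Function.update c #F y i = c i := fun i hi =>
      Function.update_of_ne hi.ne _ _
    have e' : Function.update c #F y #F = y := Function.update_self _ _ _
    rw [card_insert_of_notMem hy]
    refine ⟨Function.update c #F y, fun x hx => ?_, fun i hi => ?_, fun j hj i hi => ?_,
      fun i hi h => ?_⟩
    · rcases mem_insert.1 hx with rfl | hx
      · exact ⟨#F, Nat.lt_succ_self _, e'⟩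
      · obtain ⟨i, hi, rfl⟩ := h0 x hx
        exact ⟨i, Nat.lt_succ_of_lt hi, e i hi⟩
    · rcases Nat.lt_succ_iff_lt_or_eq.1 hi with hi | rfl
      · rw [e i hi]
        exact mem_insert_of_mem (h1 i hi)
      · rw [e']
        exact mem_insert_self _ _
    · rcases Nat.lt_succ_iff_lt_or_eq.1 hj with hj | rfl
      · rw [e j hj, e i (hi.trans hj)]
        exact h2 j hj i hi
      · rw [e', e i hi]
        exact hd _ (h1 i hi)
    · rcases Nat.lt_succ_iff_lt_or_eq.1 hi with hi | rfl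
      · obtain ⟨j, hj, hj'⟩ := h3 i hi h
        exact ⟨j, hj, by rwa [e i hi, e j (hj.trans hi)]⟩
      · obtain ⟨x, hx, hx'⟩ := hr
        obtain ⟨j, hj, rfl⟩ := h0 x hx
        exact ⟨j, hj, by rw [e', e j hj]; exact ⟨hx', trivial⟩⟩

theorem Ok.addAll {F : Finset (X × X × X)} (h : Ok R F) (M : Finset (X × X × X))
    (h1 : ∀ y ∈ M, ∃ x ∈ F, R y x) (h2 : ∀ y ∈ M, ∀ x ∈ F, Dis x y)
    (h3 : ∀ x ∈ M, ∀ y ∈ M, x ≠ y → Dis x y) : Ok R (F ∪ M) := by
  induction M using Finset.induction_on with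
  | empty => simpa using h
  | insert y M hy ih =>
    rw [union_insert]
    refine Ok.add _ _ (ih (fun z hz => h1 z (mem_insert_of_mem hz))
      (fun z hz => h2 z (mem_insert_of_mem hz))
      fun a ha b hb => h3 a (mem_insert_of_mem ha) b (mem_insert_of_mem hb)) (fun x hx => ?_) ?_
    · rcases mem_union.1 hx with hx | hx
      · exact h2 y (mem_insert_self _ _) x hx
      · exact h3 x (mem_insert_of_mem hx) y (mem_insert_self _ _) fun e => hy (e ▸ hx)
    · obtain ⟨x, hx, hx'⟩ := h1 y (mem_insert_self _ _)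
      exact ⟨x, mem_union_left _ hx, hx'⟩

variable [Fintype X]

/-- The triples related to a member of the family. -/
noncomputable def Gd (R : X × X × X → X × X × X → Prop) (F : Finset (X × X × X)) :
    Finset (X × X × X) := {y | ∃ x ∈ F, R y x}

theorem hub_step (h : Box3 R) (K D : ℕ) (hD : D = 72 * (3 * K ^ 2) ^ 9)
    (F : Finset (X × X × X)) (hF : Ok R F) (h1 : Fintype.card X ^ 3 ≤ K * #(Gd R F))
    (h2 : Fintype.card X ^ 3 ≤ K * #(Gd R F)ᶜ) (hn : D < Fintype.card X)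
    (hn' : 6 * D * #F ≤ Fintype.card X) :
    ∃ y, Ok R (insert y F) ∧ Gd R F ⊆ Gd R (insert y F) ∧
      Fintype.card X ^ 3 + 2 * D * #(Gd R F) ≤ 2 * D * #(Gd R (insert y F)) := by
  have h3 := cross h (Gd R F)ᶜ K h2 (by rwa [compl_compl]) (by omega)
  rw [compl_compl, ← hD] at h3
  have hsub : prs R (Gd R F)ᶜ (Gd R F) ⊆ prs R (Gd R F)ᶜ {y ∈ Gd R F | ∀ x ∈ F, Dis x y} ∪
      univ ×ˢ ({y : X × X × X | ¬∀ x ∈ F, Dis x y} : Finset _) := by
    intro q hq
    simp only [prs, mem_union, mem_filter, mem_univ, true_and, mem_product] at hq ⊢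
    tauto
  have h4 := (card_le_card hsub).trans (card_union_le _ _)
  rw [card_product, card_univ, Fintype.card_prod, Fintype.card_prod] at h4
  have h5 := meet_card F
  have h6 : Fintype.card X ^ 6 ≤
      2 * D * #(prs R (Gd R F)ᶜ {y ∈ Gd R F | ∀ x ∈ F, Dis x y}) := by
    generalize #(prs R (Gd R F)ᶜ {y ∈ Gd R F | ∀ x ∈ F, Dis x y}) = E at *
    generalize Fintype.card X = n at *
    have k1 := Nat.mul_le_mul_left (n * (n * n)) h5
    have k2 := Nat.mul_le_mul_left D (h4.trans (Nat.add_le_add_left k1 _))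
    have k3 := Nat.mul_le_mul_right (n ^ 5) hn'
    clear * - h3 k2 k3
    nlinarith
  obtain ⟨y, hy, hy'⟩ := pick R _ _ _ (by omega) h6
  obtain ⟨hy1, hy2⟩ := mem_filter.1 hy
  have hs : Gd R F ⊆ Gd R (insert y F) := fun z hz => by
    obtain ⟨x, hx, hx'⟩ := (mem_filter.1 hz).2
    exact mem_filter.2 ⟨mem_univ _, x, mem_insert_of_mem hx, hx'⟩
  refine ⟨y, hF.add _ _ hy2 (mem_filter.1 hy1).2, hs, ?_⟩
  have h7 : #{x ∈ (Gd R F)ᶜ | R x y ∧ Dis x y} + #(Gd R F) ≤ #(Gd R (insert y F)) := by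
    rw [← card_union_of_disjoint]
    · refine card_le_card (union_subset (fun z hz => ?_) hs)
      exact mem_filter.2 ⟨mem_univ _, y, mem_insert_self _ _, (mem_filter.1 hz).2.1⟩
    · exact disjoint_left.2 fun z hz => mem_compl.1 (mem_filter.1 hz).1
  have := Nat.mul_le_mul_left (2 * D) h7
  rw [mul_add] at this
  omega

theorem hubs (h : Box3 R) (K D : ℕ) (hD : D = 72 * (3 * K ^ 2) ^ 9) (hK : 36864 ≤ K)
    (h0 : 6144 < Fintype.card X) (hn : D < Fintype.card X)
    (hn' : 6 * D * (2 * D + 2) ≤ Fintype.card X) :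
    ∃ F, Ok R F ∧ #F ≤ 2 * D + 2 ∧ K * #(Gd R F)ᶜ < Fintype.card X ^ 3 := by
  have H : ∀ s ≤ 2 * D + 1, ∃ F, Ok R F ∧ #F ≤ s + 1 ∧ Fintype.card X ^ 3 ≤ K * #(Gd R F) ∧
      (K * #(Gd R F)ᶜ < Fintype.card X ^ 3 ∨ s * Fintype.card X ^ 3 ≤ 2 * D * #(Gd R F)) := by
    intro s
    induction s with
    | zero =>
      intro _
      obtain ⟨y, -, hy⟩ := pick R _ _ _ (by omega) (first h.1 h0)
      refine ⟨{y}, Ok.one y, by simp, hy.trans (Nat.mul_le_mul hK (card_le_card fun z hz => ?_)),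
        Or.inr (by simp)⟩
      exact mem_filter.2 ⟨mem_univ _, y, mem_singleton_self _, (mem_filter.1 hz).2.1⟩
    | succ s ih =>
      intro hs
      obtain ⟨F, hF, c1, c2, c3⟩ := ih (by omega)
      by_cases hb : K * #(Gd R F)ᶜ < Fintype.card X ^ 3
      · exact ⟨F, hF, by omega, c2, Or.inl hb⟩
      obtain ⟨y, k1, k2, k3⟩ := hub_step h K D hD F hF c2 (not_lt.1 hb) hn
        ((Nat.mul_le_mul_left _ (by omega)).trans hn')
      refine ⟨_, k1, (card_insert_le _ _).trans (by omega),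
        c2.trans (Nat.mul_le_mul_left _ (card_le_card k2)), Or.inr ?_⟩
      have := c3.resolve_left hb
      rw [add_mul]
      omega
  obtain ⟨F, hF, c1, -, c3⟩ := H _ le_rfl
  refine ⟨F, hF, c1, c3.resolve_right fun hc => ?_⟩
  have h1 : #(Gd R F) ≤ Fintype.card X ^ 3 := (card_le_univ _).trans (by
    rw [Fintype.card_prod, Fintype.card_prod]
    exact le_of_eq (by ring))
  have h2 := Nat.mul_le_mul_left (2 * D) h1
  have h3 : 0 < Fintype.card X ^ 3 := Nat.pow_pos (by omega)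
  rw [add_mul] at hc
  omega

/-- The exceptional points in one direction. -/
noncomputable def Exc (f : X × X × X → X × X × X) (G : Finset (X × X × X)) : Finset X :=
  {v | Fintype.card X ^ 2 < 100 * #{p : X × X | f (v, p.1, p.2) ∉ G}}

theorem exc_card (f : X × X × X → X × X × X) (hf : Function.Injective f) (G : Finset (X × X × X))
    (h : 100000 * #Gᶜ < Fintype.card X ^ 3) : 1000 * #(Exc f G) ≤ Fintype.card X := by
  have h1 : #{x : X × X × X | f x ∉ G} = ∑ v, #{p : X × X | f (v, p.1, p.2) ∉ G} :=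
    card_prod_filter' _
  have h2 : #{x : X × X × X | f x ∉ G} ≤ #Gᶜ :=
    card_le_card_of_injOn f (fun x hx => by simpa using hx) hf.injOn
  have h3 : #(Exc f G) * Fintype.card X ^ 2 ≤ 100 * ∑ v, #{p : X × X | f (v, p.1, p.2) ∉ G} := by
    rw [mul_sum, ← smul_eq_mul, ← sum_const]
    exact (sum_le_sum fun v hv => (mem_filter.1 hv).2.le).trans
      (sum_le_sum_of_subset (subset_univ _))
  have h4 : 1000 * #(Exc f G) * Fintype.card X ^ 2 ≤ Fintype.card X * Fintype.card X ^ 2 := by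
    have : Fintype.card X * Fintype.card X ^ 2 = Fintype.card X ^ 3 := by ring
    rw [mul_assoc]
    omega
  exact Nat.le_of_mul_le_mul_right h4 (Nat.pow_pos (Nat.pos_of_ne_zero fun e => by simp [e] at h))

theorem abs_one (f g : X × X × X → X × X × X) (hfg : ∀ x, f (g x) = x) (hgf : ∀ x, g (f x) = x)
    (hd : ∀ x y, Dis x y → Dis (f x) (f y)) (h : Box fun x y => R (f x) (f y))
    (G F : Finset (X × X × X)) (hF : Ok R F) (hG : ∀ y ∈ G, ∃ x ∈ F, R y x)
    (h0 : 6144 < Fintype.card X) (hc : 4 * #F ≤ Fintype.card X)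
    (hU : 1000 * #(Exc f G) ≤ Fintype.card X) (v : X) :
    ∃ F', Ok R F' ∧ F ⊆ F' ∧ #F' ≤ #F + 2 ∧ v ∈ F'.image fun x => (g x).1 := by
  by_cases hv : v ∈ F.image fun x => (g x).1
  · exact ⟨F, hF, Subset.refl _, by omega, hv⟩
  obtain ⟨v', hv'⟩ : ((insert v (Exc f G) ∪ F.image fun x => (g x).1)ᶜ).Nonempty := by
    have h1 := free_card (insert v (Exc f G)) F fun x => (g x).1
    have h2 := card_insert_le v (Exc f G)
    exact card_pos.1 (by omega)
  simp only [mem_compl, mem_union, mem_insert, not_or] at hv'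
  obtain ⟨⟨v1, v2⟩, v3⟩ := hv'
  have v4 : 100 * #{p : X × X | f (v', p.1, p.2) ∉ G} ≤ Fintype.card X ^ 2 := by
    simpa [Exc] using v2
  have f2 := free_card ∅ F fun x => (g x).2.1
  have f3 := free_card ∅ F fun x => (g x).2.2
  set P : Finset (X × X) := {p ∈ (∅ ∪ F.image fun x => (g x).2.1)ᶜ ×ˢ
    (∅ ∪ F.image fun x => (g x).2.2)ᶜ | f (v', p.1, p.2) ∈ G} with hP
  have hsub : (∅ ∪ F.image fun x => (g x).2.1)ᶜ ×ˢ (∅ ∪ F.image fun x => (g x).2.2)ᶜ ⊆
      P ∪ ({p : X × X | f (v', p.1, p.2) ∉ G} : Finset _) := by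
    intro p hp
    simp only [hP, mem_union, mem_filter, hp, mem_univ, true_and]
    exact em _
  have h1 := (card_le_card hsub).trans (card_union_le _ _)
  rw [card_product] at h1
  have h2 : Fintype.card X ^ 2 ≤ 2 * #P := by
    generalize #(∅ ∪ F.image fun x => (g x).2.1)ᶜ = a at *
    generalize #(∅ ∪ F.image fun x => (g x).2.2)ᶜ = b at *
    generalize Fintype.card X = n at *
    rw [card_empty] at f2 f3
    have k1 : 3 * n ≤ 4 * a := by omega
    have k2 : 3 * n ≤ 4 * b := by omega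
    have k3 := Nat.mul_le_mul k1 k2
    clear * - k3 h1 v4
    nlinarith
  have h3 := boxB _ h v v' (Ne.symm v1) P
  obtain ⟨q, hq⟩ : ({q ∈ P ×ˢ P | R (f (v, q.1)) (f (v', q.2)) ∧ q.1.1 ≠ q.2.1 ∧
      q.1.2 ≠ q.2.2} : Finset _).Nonempty := by
    by_contra hne
    rw [not_nonempty_iff_eq_empty] at hne
    have e : #{q ∈ P ×ˢ P | R (f (v, q.1)) (f (v', q.2)) ∧ q.1.1 ≠ q.2.1 ∧ q.1.2 ≠ q.2.2} = 0 := by
      rw [hne, card_empty]
    have h4 : #P ^ 9 ≤ Fintype.card X ^ 12 * (36 * Fintype.card X ^ 2 * 0 +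
        6 * Fintype.card X ^ 5) := e ▸ h3
    have h5 := Nat.pow_le_pow_left h2 9
    generalize Fintype.card X = n at *
    have h6 : n ^ 17 * n ≤ n ^ 17 * 3072 := (le_of_eq (by ring)).trans (h5.trans ((le_of_eq
      (mul_pow _ _ _)).trans ((Nat.mul_le_mul_left _ h4).trans (le_of_eq (by ring)))))
    have := Nat.le_of_mul_le_mul_left h6 (Nat.pow_pos (by omega))
    omega
  obtain ⟨hq, r1, r2, r3⟩ := mem_filter.1 hq
  obtain ⟨q1, q2⟩ := mem_product.1 hq
  have key : ∀ u ∉ F.image fun x => (g x).1, ∀ p ∈ P, ∀ x ∈ F, Dis x (f (u, p)) := by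
    intro u hu p hp x hx
    have := (mem_filter.1 hp).1
    simp only [empty_union, mem_product, mem_compl, mem_image, not_exists, not_and] at this hu
    have := hd (g x) (u, p) ⟨hu x hx, this.1 x hx, this.2 x hx⟩
    rwa [hfg] at this
  have o1 := hF.add _ _ (key v' v3 _ q2) (hG _ (mem_filter.1 q2).2)
  have o2 := o1.add _ (f (v, q.1)) (fun x hx => by
    rcases mem_insert.1 hx with rfl | hx
    · exact hd _ _ ⟨v1, r2.symm, r3.symm⟩
    · exact key v hv _ q1 x hx) ⟨_, mem_insert_self _ _, r1⟩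
  refine ⟨_, o2, (subset_insert _ _).trans (subset_insert _ _),
    (card_insert_le _ _).trans (Nat.succ_le_succ (card_insert_le _ _)),
    mem_image.2 ⟨_, mem_insert_self _ _, by rw [hgf]⟩⟩

theorem abs_all (f g : X × X × X → X × X × X) (hfg : ∀ x, f (g x) = x) (hgf : ∀ x, g (f x) = x)
    (hd : ∀ x y, Dis x y → Dis (f x) (f y)) (h : Box fun x y => R (f x) (f y))
    (G F : Finset (X × X × X)) (hF : Ok R F) (hG : ∀ y ∈ G, ∃ x ∈ F, R y x)
    (h0 : 6144 < Fintype.card X) (hU : 1000 * #(Exc f G) ≤ Fintype.card X) (U : Finset X)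
    (hc : 4 * (#F + 2 * #U) ≤ Fintype.card X) :
    ∃ F', Ok R F' ∧ F ⊆ F' ∧ #F' ≤ #F + 2 * #U ∧ U ⊆ F'.image fun x => (g x).1 := by
  induction U using Finset.induction_on with
  | empty => exact ⟨F, hF, Subset.refl _, by omega, empty_subset _⟩
  | insert v U hv ih =>
    rw [card_insert_of_notMem hv] at hc ⊢
    obtain ⟨F1, a1, a2, a3, a4⟩ := ih (by omega)
    obtain ⟨F2, b1, b2, b3, b4⟩ := abs_one f g hfg hgf hd h G F1 a1
      (fun y hy => (hG y hy).imp fun x hx => ⟨a2 hx.1, hx.2⟩) h0 (by omega) hU v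
    exact ⟨F2, b1, a2.trans b2, by omega, insert_subset b4 (a4.trans (image_subset_image b2))⟩

theorem full (h : Box3 R) (D : ℕ) (hD : D = 72 * (3 * 100000 ^ 2) ^ 9)
    (h0 : 6144 < Fintype.card X) (hn : D < Fintype.card X)
    (hn' : 6 * D * (2 * D + 2) ≤ Fintype.card X) (hn'' : 8 * (2 * D + 2) ≤ Fintype.card X) :
    ∃ F, Ok R F ∧ #F = Fintype.card X := by
  obtain ⟨F0, o0, c0, hb⟩ := hubs h 100000 D hD (by norm_num) h0 hn hn'
  have u1 := exc_card id Function.injective_id _ hb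
  have u2 := exc_card rot rot_inj _ hb
  have u3 := exc_card (fun x => rot (rot x)) (rot_inj.comp rot_inj) _ hb
  have g0 : ∀ y ∈ Gd R F0, ∃ x ∈ F0, R y x := fun y hy => (mem_filter.1 hy).2
  have mono : ∀ F, F0 ⊆ F → ∀ y ∈ Gd R F0, ∃ x ∈ F, R y x := fun F hF y hy =>
    (g0 y hy).imp fun x hx => ⟨hF hx.1, hx.2⟩
  obtain ⟨F1, o1, s1, c1, e1⟩ := abs_all id id (fun _ => rfl) (fun _ => rfl) (fun _ _ h => h) h.1
    _ F0 o0 g0 h0 u1 (Exc id (Gd R F0)) (by omega)
  obtain ⟨F2, o2, s2, c2, e2⟩ := abs_all rot (fun x => rot (rot x)) (fun _ => rfl) (fun _ => rfl)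
    (fun _ _ h => dis_rot.2 h) h.2.1 _ F1 o1 (mono _ s1) h0 u2 (Exc rot (Gd R F0)) (by omega)
  obtain ⟨F, o3, s3, c3, e3⟩ := abs_all (fun x => rot (rot x)) rot (fun _ => rfl) (fun _ => rfl)
    (fun _ _ h => dis_rot.2 (dis_rot.2 h)) h.2.2 _ F2 o2 (mono _ (s1.trans s2)) h0 u3
    (Exc (fun x => rot (rot x)) (Gd R F0)) (by omega)
  have i1 : #(F.image fun x => x.1) = #F := card_image_of_injOn fun T h T' h' e => by
    by_contra ne
    exact (o3.dis T h T' h' ne).1 e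
  have i2 : #(F.image fun x => x.2.1) = #F := card_image_of_injOn fun T h T' h' e => by
    by_contra ne
    exact (o3.dis T h T' h' ne).2.1 e
  have i3 : #(F.image fun x => x.2.2) = #F := card_image_of_injOn fun T h T' h' e => by
    by_contra ne
    exact (o3.dis T h T' h' ne).2.2 e
  obtain ⟨M, hM, hc⟩ := pm (Gd R F0) (F.image fun x => x.1) (F.image fun x => x.2.1)
    (F.image fun x => x.2.2) (by omega)
    (fun v hv => not_lt.1 fun hl => hv (image_subset_image (s2.trans s3)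
      (e1 (mem_filter.2 ⟨mem_univ _, hl⟩))))
    (fun v hv => not_lt.1 fun hl => hv (image_subset_image s3
      (e2 (mem_filter.2 ⟨mem_univ _, hl⟩))))
    (fun v hv => not_lt.1 fun hl => hv (e3 (mem_filter.2 ⟨mem_univ _, hl⟩)))
    (by omega) (by omega) (by omega)
  have hd : ∀ y ∈ M, ∀ x ∈ F, Dis x y := fun y hy x hx =>
    ⟨fun e => (hM.1 y hy).2.1 (mem_image.2 ⟨x, hx, e⟩),
      fun e => (hM.1 y hy).2.2.1 (mem_image.2 ⟨x, hx, e⟩),
      fun e => (hM.1 y hy).2.2.2 (mem_image.2 ⟨x, hx, e⟩)⟩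
  refine ⟨_, o3.addAll M (fun y hy => mono _ (s1.trans (s2.trans s3)) y (hM.1 y hy).1) hd hM.2, ?_⟩
  rw [card_union_of_disjoint (disjoint_left.2 fun x hx hm => (hd x hm x hx).1 rfl)]
  omega

/-- No loss for large `n`. -/
theorem exact (hG : GSt) : ∃ n₀ : ℕ, ∀ n, n₀ ≤ n → ∀ w, K33 (tri n) w → Fam (tri n) w n := by
  obtain ⟨D, hD⟩ : ∃ D : ℕ, D = 72 * (3 * 100000 ^ 2) ^ 9 := ⟨_, rfl⟩
  refine ⟨6145 + D + 6 * D * (2 * D + 2) + 8 * (2 * D + 2), fun n hn w hw => ?_⟩
  obtain ⟨F, hF, hc⟩ := full (X := Fin n) (R := fun T T' => Lnk w (tl T) (tl T')) (hG n w hw) D hD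
    (by rw [Fintype.card_fin]; omega) (by rw [Fintype.card_fin]; omega)
    (by rw [Fintype.card_fin]; omega) (by rw [Fintype.card_fin]; omega)
  obtain ⟨c, -, h2, h3⟩ := hF.seq
  rw [hc, Fintype.card_fin] at h2 h3
  have hd : ∀ x y : Fin n × Fin n × Fin n, Dis x y → (tl x).Disjoint (tl y) := fun x y h => by
    simp [tl, h.1, h.2.1, h.2.2, h.1.symm, h.2.1.symm, h.2.2.symm]
  refine ⟨fun i => tl (c i), fun i => ⟨by simp [tl], by simp [tl], by simp [tl, arcs, tri]⟩,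
    fun i j hij => ?_, fun i hi => ?_⟩
  · rcases lt_or_gt_of_ne hij with h | h
    · exact hd _ _ (h2 j j.2 i h)
    · exact hd _ _ (h2 i i.2 j h).symm
  · obtain ⟨j, hj, hr, -⟩ := h3 i i.2 hi
    exact ⟨⟨j, hj.trans i.2⟩, hj, hr.symm⟩

end Pool.Agent.Lib.MP_4fe900_gt
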