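import Pool.Agent.Lib.MP_4fe900_gt.St

/-!
Extension of an oriented graph to a tournament.
-/

namespace Pool.Agent.Lib.MP_4fe900_gt

open Set

namespace Ext

theorem arcs_map {V W : Type} (φ : V → W) (l : List V) :
    arcs (l.map φ) = (arcs l).map (Prod.map φ φ) := by
  simp [arcs, ← List.map_rotate, List.zip_map]

/-- The restriction of an embedding. -/
def pull {V W : Type} {r : V → V → Prop} {q : W → W → Prop} (φ : V → W)
    (hi : Function.Injective φ) (h : ∀ a b, r a b → q (φ a) (φ b)) (E : Emb q) : Emb r where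
  pt := fun v => E.pt (φ v)
  arc := fun a b => E.arc (φ a) (φ b)
  pt_inj := E.pt_inj.comp hi
  src := fun a b hab => E.src _ _ (h a b hab)
  tgt := fun a b hab => E.tgt _ _ (h a b hab)
  arc_inj := fun a b hab => E.arc_inj _ _ (h a b hab)
  arc_pt := fun a b v t hab e => (E.arc_pt _ _ _ t (h a b hab) e).imp (fun x => hi x) fun x => hi x
  meet := fun a b c d s t hab hcd hne e => by
    obtain ⟨v, hv⟩ := E.meet _ _ _ _ s t (h a b hab) (h c d hcd) (fun x => hne (by
      rw [Prod.mk.injEq] at x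
      rw [hi x.1, hi x.2])) e
    rcases E.arc_pt _ _ v s (h a b hab) hv with rfl | rfl
    · exact ⟨a, hv⟩
    · exact ⟨b, hv⟩

theorem inL_map {V W : Type} {r : V → V → Prop} {q : W → W → Prop} (φ : V → W)
    (hi : Function.Injective φ) (h : ∀ a b, r a b → q (φ a) (φ b)) {m : ℕ} (H : InL r m) :
    InL q m := by
  intro E
  obtain ⟨c, hc, hd, hn⟩ := H (pull φ hi h E)
  refine ⟨fun i => (c i).map φ, fun i => ⟨by simpa using (hc i).1, (hc i).2.1.map hi, ?_⟩, ?_, ?_⟩
  · intro e he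
    rw [arcs_map] at he
    obtain ⟨e', he', rfl⟩ := List.mem_map.1 he
    exact h _ _ ((hc i).2.2 e' he')
  · intro i j hij
    exact List.disjoint_map hi (hd hij)
  · have : (fun i => E.img ((c i).map φ)) = fun i => (pull φ hi h E).img (c i) := by
      funext i
      ext x
      simp only [Emb.img, arcs_map, mem_iUnion, List.mem_map, exists_prop]
      constructor
      · rintro ⟨_, ⟨e, he, rfl⟩, hx⟩
        exact ⟨e, he, hx⟩
      · rintro ⟨e, he, hx⟩
        exact ⟨_, ⟨e, he, rfl⟩, hx⟩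
    rw [this]
    exact hn

end Ext

theorem ext : ExtSt := by
  intro V _ r m N ha hc H
  obtain ⟨φ⟩ : Nonempty (V ↪ Fin N) := Function.Embedding.nonempty_of_card_le (by simpa using hc)
  let p : Fin N → Fin N → Prop := fun x y => ∃ a b, φ a = x ∧ φ b = y ∧ r a b
  have hp : ∀ x y, p x y → ¬p y x := by
    rintro _ _ ⟨a, b, rfl, rfl, hab⟩ ⟨b', a', e1, e2, h'⟩
    rw [φ.injective e1, φ.injective e2] at h'
    exact ha a b hab h'
  refine ⟨fun x y => p x y ∨ (¬p y x ∧ x < y), ⟨?_, ?_⟩,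
    Ext.inL_map φ φ.injective (fun a b hab => Or.inl ⟨a, b, rfl, rfl, hab⟩) H⟩
  · rintro x y (h1 | ⟨h1, h2⟩) (h3 | ⟨h3, h4⟩)
    · exact hp x y h1 h3
    · exact h3 h1
    · exact h1 h3
    · exact lt_asymm h2 h4
  · intro x y hxy
    by_cases h1 : p x y
    · exact Or.inl (Or.inl h1)
    by_cases h2 : p y x
    · exact Or.inr (Or.inl h2)
    rcases lt_or_gt_of_ne hxy with h | h
    · exact Or.inl (Or.inr ⟨h2, h⟩)
    · exact Or.inr (Or.inr ⟨h1, h⟩)

end Pool.Agent.Lib.MP_4fe900_gt
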