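import Pool.Agent.Lib.MP_4fe900_gt.St2

/-!
Linked pairs of triangles in all boxes.
-/

namespace Pool.Agent.Lib.MP_4fe900_gt

open Finset

theorem lk3 {V : Type} (w : V × V → V × V → ZMod 2) (x y z p q r : V) :
    lk w [x, y, z] [p, q, r] =
      (w (x, y) (p, q) + (w (x, y) (q, r) + w (x, y) (r, p))) +
      ((w (y, z) (p, q) + (w (y, z) (q, r) + w (y, z) (r, p))) +
      (w (z, x) (p, q) + (w (z, x) (q, r) + w (z, x) (r, p)))) := by
  simp [lk, arcs]

theorem lk3_rot {V : Type} (w : V × V → V × V → ZMod 2) (x y z p q r : V) :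
    lk w [z, x, y] [r, p, q] = lk w [x, y, z] [p, q, r] := by
  rw [lk3, lk3]; ring

theorem gbase {V : Type} (w : V × V → V × V → ZMod 2) (a b : Fin 3 → V) (c c' : V)
    (h1 : ∑ i, ∑ i', ∑ j, ∑ j',
      (if i ≠ i' ∧ j ≠ j' then w (a i, b j) (a i', b j') else 0) = 1) :
    ∃ i i' j j', i ≠ i' ∧ j ≠ j' ∧ lk w [a i, b j, c] [a i', b j', c'] = 1 := by
  by_contra hc
  push Not at hc
  have z : ∀ a : ZMod 2, a ≠ 1 → a = 0 := by decide
  have h0 : (∑ i, ∑ i', ∑ j, ∑ j', if i ≠ i' ∧ j ≠ j' then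
      lk w [a i, b j, c] [a i', b j', c'] else 0) = 0 := by
    refine sum_eq_zero fun i _ => sum_eq_zero fun i' _ => sum_eq_zero fun j _ =>
      sum_eq_zero fun j' _ => ?_
    split_ifs with h
    · exact z _ (hc i i' j j' h.1 h.2)
    · rfl
  simp only [Fin.sum_univ_three] at h0 h1
  simp only [ne_eq, Fin.reduceEq, not_true_eq_false, not_false_eq_true, and_true, and_false,
    if_true, if_false, and_self, lk3] at h0 h1
  have : (1 : ZMod 2) = 0 := by
    linear_combination (norm := (ring_nf; reduce_mod_char; try ring_nf)) h0 - h1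
  exact absurd this (by decide)

theorem gcl {n : ℕ} {w : _} (hK : K33 (tri n) w) (s t : Fin 3) (h : t = s + 1)
    (b c : Fin 3 → Fin n) (hb : Function.Injective b) (hc : Function.Injective c)
    (v v' : Fin 3 × Fin n) :
    ∃ j j' k k', j ≠ j' ∧ k ≠ k' ∧
      lk w [(s, b j), (t, c k), v] [(s, b j'), (t, c k'), v'] = 1 := by
  have ne : ∀ s t : Fin 3, t = s + 1 → s ≠ t := by decide
  exact gbase w (fun i => (s, b i)) (fun j => (t, c j)) v v'
    (hK _ _ (fun i j e => hb (Prod.mk.inj e).2) (fun i j e => hc (Prod.mk.inj e).2)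
      (fun i j e => ne s t h (Prod.mk.inj e).1) (fun i j => h))

theorem gS : GSt := by
  intro n w hK
  refine ⟨fun v v' b c _ hb hc => ?_, fun v v' b c _ hb hc => ?_, fun v v' b c _ hb hc => ?_⟩
  · obtain ⟨j, j', k, k', h1, h2, h⟩ := gcl hK 1 2 rfl b c hb hc (0, v) (0, v')
    exact ⟨j, j', k, k', h1, h2, Or.inl ((lk3_rot w _ _ _ _ _ _).trans h)⟩
  · obtain ⟨j, j', k, k', h1, h2, h⟩ := gcl hK 2 0 rfl b c hb hc (1, v) (1, v')
    exact ⟨j, j', k, k', h1, h2,
      Or.inl ((lk3_rot w _ _ _ _ _ _).trans ((lk3_rot w _ _ _ _ _ _).trans h))⟩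
  · obtain ⟨j, j', k, k', h1, h2, h⟩ := gcl hK 0 1 rfl b c hb hc (2, v) (2, v')
    exact ⟨j, j', k, k', h1, h2, Or.inl h⟩

end Pool.Agent.Lib.MP_4fe900_gt
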