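import Pool.Agent.Lib.MP_4fe900_gt.St

/-!
From linking data to nonsplit links.
-/

namespace Pool.Agent.Lib.MP_4fe900_gt

open Set

namespace In

theorem mem_arcs {V : Type} (l : List V) (i : ℕ) (h : i + 1 < l.length) :
    (l[i], l[i + 1]) ∈ arcs l := by
  have hl : i < (arcs l).length := by simp [arcs]; omega
  have : (arcs l)[i] = (l[i], l[i + 1]) := by
    simp [arcs, List.getElem_zip, List.getElem_rotate, Nat.mod_eq_of_lt h]
  rw [← this]
  exact List.getElem_mem hl

theorem const {V X : Type} (l : List V) (φ : V → X) (h : ∀ e ∈ arcs l, φ e.1 = φ e.2) :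
    ∀ a ∈ l, ∀ b ∈ l, φ a = φ b := by
  have key : ∀ (i : ℕ) (hi : i < l.length), φ l[i] = φ (l[0]'(by omega)) := by
    intro i
    induction i with
    | zero => intro _; rfl
    | succ i ih =>
      intro hi
      rw [← ih (by omega)]
      exact (h _ (mem_arcs l i hi)).symm
  intro a ha b hb
  obtain ⟨i, hi, rfl⟩ := List.getElem_of_mem ha
  obtain ⟨j, hj, rfl⟩ := List.getElem_of_mem hb
  rw [key i hi, key j hj]

theorem arc_comp {V : Type} {r : V → V → Prop} (E : Emb r) (Ω : Set R3) (a b : V)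
    (h : range (E.arc a b) ⊆ Ω) (s t : unitInterval) :
    connectedComponentIn Ω (E.arc a b s) = connectedComponentIn Ω (E.arc a b t) := by
  have hp : IsPreconnected (range (E.arc a b)) := isPreconnected_range (E.arc a b).continuous
  exact connectedComponentIn_eq (hp.subset_connectedComponentIn (mem_range_self s) h (mem_range_self t))

theorem cyc_comp {V : Type} {r : V → V → Prop} (E : Emb r) (Ω : Set R3) (l : List V)
    (hl : IsCyc r l) (h : E.img l ⊆ Ω) :
    ∀ x ∈ E.img l, ∀ y ∈ E.img l, connectedComponentIn Ω x = connectedComponentIn Ω y := by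
  have hs : ∀ e ∈ arcs l, range (E.arc e.1 e.2) ⊆ Ω := fun e he z hz =>
    h (mem_iUnion₂.2 ⟨e, he, hz⟩)
  have hc := const l (fun v => connectedComponentIn Ω (E.pt v)) fun e he => by
    have := arc_comp E Ω e.1 e.2 (hs e he) 0 1
    rwa [E.src _ _ (hl.2.2 e he), E.tgt _ _ (hl.2.2 e he)] at this
  have hv : ∀ x ∈ E.img l, ∃ v ∈ l,
      connectedComponentIn Ω x = connectedComponentIn Ω (E.pt v) := by
    intro x hx
    obtain ⟨e, he, s, rfl⟩ := mem_iUnion₂.1 hx
    refine ⟨e.1, (List.of_mem_zip he).1, ?_⟩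
    rw [arc_comp E Ω e.1 e.2 (hs e he) s 0, E.src _ _ (hl.2.2 e he)]
  intro x hx y hy
  obtain ⟨v, hv', e1⟩ := hv x hx
  obtain ⟨u, hu', e2⟩ := hv y hy
  rw [e1, e2]
  exact hc v hv' u hu'

end In

theorem inS (h : TopSt) : InSt := by
  intro V _ r m hF E
  obtain ⟨w, hK, hS⟩ := h V r E
  obtain ⟨c, hc, hd, hl⟩ := hF w hK
  refine ⟨c, hc, hd, ?_⟩
  intro f hf hi hdis
  have hsub : ∀ i, E.img (c i) ⊆ (range f)ᶜ := fun i => (hdis i).symm.subset_compl_right
  have one := fun i => In.cyc_comp E _ (c i) (hc i) (hsub i)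
  have two : ∀ i j, i ≠ j → lk w (c i) (c j) = 1 → ∀ x ∈ E.img (c i), ∀ y ∈ E.img (c j),
      connectedComponentIn (range f)ᶜ x = connectedComponentIn (range f)ᶜ y := by
    intro i j hij h1 x hx y hy
    obtain ⟨x', hx', y', hy', hm⟩ := hS _ _ (hc i) (hc j) (hd hij) h1 f hf hi (hdis i) (hdis j)
    rw [one i x hx x' hx', one j y hy y' hy']
    exact connectedComponentIn_eq hm
  have ne : ∀ i, (E.img (c i)).Nonempty := by
    intro i
    obtain ⟨hne, -, -⟩ := hc i
    have hl0 : 0 < (arcs (c i)).length := by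
      simpa [arcs] using List.length_pos_iff.2 hne
    exact ⟨_, mem_iUnion₂.2 ⟨_, List.getElem_mem hl0, mem_range_self 0⟩⟩
  have key : ∀ (n : ℕ) (i : Fin m), i.val = n → ∀ k : Fin m, k.val = 0 → ∀ x ∈ E.img (c i),
      ∀ y ∈ E.img (c k),
      connectedComponentIn (range f)ᶜ x = connectedComponentIn (range f)ᶜ y := by
    intro n
    induction n using Nat.strong_induction_on with
    | _ n ih =>
      intro i hin k hk x hx y hy
      by_cases h0 : i.val = 0
      · obtain rfl : i = k := Fin.ext (h0.trans hk.symm)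
        exact one i x hx y hy
      · obtain ⟨j, hj, h1⟩ := hl i h0
        obtain ⟨z, hz⟩ := ne j
        rw [← ih j.val (hin ▸ hj) j rfl k hk z hz y hy]
        rcases h1 with h1 | h1
        · exact (two j i hj.ne h1 z hz x hx).symm
        · exact two i j hj.ne' h1 x hx z hz
  intro i j x hx y hy
  obtain ⟨z, hz⟩ := ne ⟨0, i.pos⟩
  rw [key _ i rfl ⟨0, i.pos⟩ rfl x hx z hz, ← key _ j rfl ⟨0, i.pos⟩ rfl y hy z hz]
  exact mem_connectedComponentIn (hsub j hy)

end Pool.Agent.Lib.MP_4fe900_gt
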