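import Pool.Agent.Lib.MP_4fe900_gt.St

/-!
The trivial lower bound: straight segments between points of the moment curve give an embedding,
and a consistently oriented cycle of a tournament has at least three vertices.
-/

namespace Pool.Agent.Lib.MP_4fe900_gt

open Set

/-- The moment curve. -/
noncomputable def mom (x : ℝ) : R3 := !₂[x, x ^ 2, x ^ 3]

/-- The segment between two points. -/
noncomputable def seg (P Q : R3) : C(unitInterval, R3) :=
  ⟨fun s => (1 - (s : ℝ)) • P + (s : ℝ) • Q, by fun_prop⟩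

theorem seg_mom (a b : ℝ) (s : unitInterval) :
    seg (mom a) (mom b) s 0 = (1 - s) * a + s * b ∧
    seg (mom a) (mom b) s 1 = (1 - s) * a ^ 2 + s * b ^ 2 ∧
    seg (mom a) (mom b) s 2 = (1 - s) * a ^ 3 + s * b ^ 3 := by
  simp [seg, mom]

theorem seg_zero (P Q : R3) : seg P Q 0 = P := by simp [seg]

theorem seg_one (P Q : R3) : seg P Q 1 = Q := by simp [seg]

/-- The embedding of a digraph without loops and antiparallel edges. -/
noncomputable def momEmb {N : ℕ} (q : Fin N → Fin N → Prop) (h : ∀ a b, q a b → ¬q b a) :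
    Emb q where
  pt v := mom (v : ℕ)
  arc a b := seg (mom (a : ℕ)) (mom (b : ℕ))
  pt_inj := by
    intro a b e
    have := congrArg (fun x : R3 => x 0) e
    simp only [mom] at this
    exact Fin.ext (by simpa using this)
  src a b _ := seg_zero _ _
  tgt a b _ := seg_one _ _
  arc_inj := by
    intro a b hab s t e
    have hne : ((a : ℕ) : ℝ) ≠ (b : ℕ) := by
      intro e'
      have : a = b := Fin.ext (by exact_mod_cast e')
      subst this
      exact h a a hab hab
    have h1 := (seg_mom (a : ℕ) (b : ℕ) s).1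
    have h2 := (seg_mom (a : ℕ) (b : ℕ) t).1
    rw [e, h2] at h1
    have : ((s : ℝ) - t) * (((a : ℕ) : ℝ) - (b : ℕ)) = 0 := by linear_combination h1
    rcases mul_eq_zero.1 this with h3 | h3
    · exact Subtype.ext (by linarith)
    · exact absurd (by linarith) hne
  arc_pt := by
    intro a b v t _ e
    obtain ⟨h1, h2, -⟩ := seg_mom (a : ℕ) (b : ℕ) t
    rw [e] at h1 h2
    have h1' : ((v : ℕ) : ℝ) = (1 - t) * (a : ℕ) + t * (b : ℕ) := by simpa [mom] using h1
    have h2' : ((v : ℕ) : ℝ) ^ 2 = (1 - t) * ((a : ℕ) : ℝ) ^ 2 + t * ((b : ℕ) : ℝ) ^ 2 := by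
      simpa [mom] using h2
    have : (((v : ℕ) : ℝ) - (a : ℕ)) * (((v : ℕ) : ℝ) - (b : ℕ)) = 0 := by
      linear_combination h2' - (((a : ℕ) : ℝ) + (b : ℕ)) * h1'
    rcases mul_eq_zero.1 this with h3 | h3
    · exact Or.inl (Fin.ext (by exact_mod_cast sub_eq_zero.1 h3))
    · exact Or.inr (Fin.ext (by exact_mod_cast sub_eq_zero.1 h3))
  meet := by
    intro a b c d s t hab hcd hne e
    by_cases hs0 : s = 0
    · exact ⟨a, by rw [hs0, seg_zero]⟩
    by_cases hs1 : s = 1
    · exact ⟨b, by rw [hs1, seg_one]⟩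
    exfalso
    have hs0' : (s : ℝ) ≠ 0 := fun x => hs0 (Subtype.ext x)
    have hs1' : 1 - (s : ℝ) ≠ 0 := fun x => hs1 (Subtype.ext (by
      change (s : ℝ) = 1
      linarith))
    have hab' : a ≠ b := by
      rintro rfl
      exact h a a hab hab
    have cast : ∀ x y : Fin N, ((x : ℕ) : ℝ) - (y : ℕ) = 0 → x = y := fun x y e' =>
      Fin.ext (by exact_mod_cast sub_eq_zero.1 e')
    obtain ⟨h1, h2, h3⟩ := seg_mom (a : ℕ) (b : ℕ) s
    obtain ⟨k1, k2, k3⟩ := seg_mom (c : ℕ) (d : ℕ) t
    rw [e, k1] at h1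
    rw [e, k2] at h2
    rw [e, k3] at h3
    generalize hA : ((a : ℕ) : ℝ) = A at *
    generalize hB : ((b : ℕ) : ℝ) = B at *
    generalize hC : ((c : ℕ) : ℝ) = C at *
    generalize hD : ((d : ℕ) : ℝ) = D at *
    have e1 : (1 - (s : ℝ)) * ((A - B) * ((A - C) * (A - D))) = 0 := by
      linear_combination -h3 + (B + C + D) * h2 - (B * C + B * D + C * D) * h1
    have e2 : (s : ℝ) * ((B - A) * ((B - C) * (B - D))) = 0 := by
      linear_combination -h3 + (A + C + D) * h2 - (A * C + A * D + C * D) * h1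
    have hAB : A - B ≠ 0 := fun x => hab' (cast a b (by rw [hA, hB]; exact x))
    have hBA : B - A ≠ 0 := fun x => hAB (by linarith)
    have f1 := mul_eq_zero.1 ((mul_eq_zero.1 ((mul_eq_zero.1 e1).resolve_left hs1')).resolve_left hAB)
    have f2 := mul_eq_zero.1 ((mul_eq_zero.1 ((mul_eq_zero.1 e2).resolve_left hs0')).resolve_left hBA)
    have g1 : a = c ∨ a = d := f1.imp (fun x => cast a c (by rw [hA, hC]; exact x))
      fun x => cast a d (by rw [hA, hD]; exact x)
    have g2 : b = c ∨ b = d := f2.imp (fun x => cast b c (by rw [hB, hC]; exact x))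
      fun x => cast b d (by rw [hB, hD]; exact x)
    rcases g1 with rfl | rfl <;> rcases g2 with rfl | rfl
    · exact hab' rfl
    · exact hne rfl
    · exact h _ _ hab hcd
    · exact hab' rfl

theorem three_le_length {V : Type} {r : V → V → Prop} (h : ∀ a b, r a b → ¬r b a) {l : List V}
    (hl : IsCyc r l) : 3 ≤ l.length := by
  obtain ⟨h0, -, h2⟩ := hl
  match l, h0, h2 with
  | [a], _, h2 => exact absurd (h2 (a, a) (by simp [arcs])) fun x => h a a x x
  | [a, b], _, h2 =>
    exact absurd (h2 (b, a) (by simp [arcs])) (h a b (h2 (a, b) (by simp [arcs])))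
  | _ :: _ :: _ :: _, _, _ => simp

theorem low : LowSt := by
  intro m N q hq hI
  obtain ⟨c, hc, hd, -⟩ := hI (momEmb q hq.1)
  have h1 : ∀ i, 3 ≤ (c i).toFinset.card := fun i => by
    rw [List.toFinset_card_of_nodup (hc i).2.1]
    exact three_le_length hq.1 (hc i)
  have h2 : (Finset.univ.biUnion fun i => (c i).toFinset).card = ∑ i, (c i).toFinset.card :=
    Finset.card_biUnion fun i _ j _ hij => List.disjoint_toFinset_iff_disjoint.2 (hd hij)
  have h3 := Finset.card_le_univ (Finset.univ.biUnion fun i => (c i).toFinset)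
  have h4 : ∑ _i : Fin m, 3 ≤ ∑ i, (c i).toFinset.card := Finset.sum_le_sum fun i _ => h1 i
  simp only [Finset.sum_const, Finset.card_univ, Fintype.card_fin, smul_eq_mul] at h3 h4
  omega

end Pool.Agent.Lib.MP_4fe900_gt
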