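import Pool.Agent.Lib.MP_4fe900_gt.Defs

/-!
Intrinsically linked tournaments: the statements of the blocks.
-/

namespace Pool.Agent.Lib.MP_4fe900_gt

open Set

/-- The linking number modulo two. -/
def lk {V : Type} (w : V × V → V × V → ZMod 2) (X Y : List V) : ZMod 2 :=
  ((arcs X).map fun e => ((arcs Y).map fun f => w e f).sum).sum

/-- The parity of van Kampen for every complete bipartite subgraph on three and three vertices. -/
def K33 {V : Type} (r : V → V → Prop) (w : V × V → V × V → ZMod 2) : Prop :=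
  ∀ a b : Fin 3 → V, Function.Injective a → Function.Injective b → (∀ i j, a i ≠ b j) →
    (∀ i j, r (a i) (b j)) →
    ∑ i, ∑ i', ∑ j, ∑ j', (if i ≠ i' ∧ j ≠ j' then w (a i, b j) (a i', b j') else 0) = 1

/-- There are `m` disjoint cycles with a connected linking graph. -/
def Fam {V : Type} (r : V → V → Prop) (w : V × V → V × V → ZMod 2) (m : ℕ) : Prop :=
  ∃ c : Fin m → List V, (∀ i, IsCyc r (c i)) ∧ (Pairwise fun i j => (c i).Disjoint (c j)) ∧
    ∀ i : Fin m, i.val ≠ 0 → ∃ j, j < i ∧ (lk w (c j) (c i) = 1 ∨ lk w (c i) (c j) = 1)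

/-- Linking data of an embedding. -/
def TopSt : Prop :=
  ∀ (V : Type) [Fintype V] (r : V → V → Prop) (E : Emb r), ∃ w, K33 r w ∧ ∀ X Y : List V,
    IsCyc r X → IsCyc r Y → X.Disjoint Y → lk w X Y = 1 →
    ∀ f : Metric.sphere (0 : R3) 1 → R3, Continuous f → Function.Injective f →
      Disjoint (range f) (E.img X) → Disjoint (range f) (E.img Y) →
      ∃ x ∈ E.img X, ∃ y ∈ E.img Y, y ∈ connectedComponentIn (range f)ᶜ x

/-- From linking data to links. -/
def InSt : Prop :=
  ∀ (V : Type) [Fintype V] (r : V → V → Prop) (m : ℕ), (∀ w, K33 r w → Fam r w m) → InL r m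

/-- The cyclic blow-up of a directed triangle. -/
def tri (n : ℕ) (a b : Fin 3 × Fin n) : Prop := b.1 = a.1 + 1

/-- The logarithmic loss. -/
def LogSt : Prop :=
  ∃ C : ℕ, ∀ n m : ℕ, m + C * Nat.log 2 n + C ≤ n → ∀ w, K33 (tri n) w → Fam (tri n) w m

/-- The explicit linear bound. -/
def SixSt : Prop :=
  ∀ m : ℕ, 2 ≤ m → ∃ (V : Type) (_ : Fintype V) (r : V → V → Prop),
    Fintype.card V ≤ 6 * m - 3 - m % 2 ∧ (∀ a b, r a b → ¬r b a) ∧ ∀ w, K33 r w → Fam r w m

/-- Extension to a tournament. -/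
def ExtSt : Prop :=
  ∀ (V : Type) [Fintype V] (r : V → V → Prop) (m N : ℕ), (∀ a b, r a b → ¬r b a) →
    Fintype.card V ≤ N → InL r m → ∃ q : Fin N → Fin N → Prop, Tour q ∧ InL q m

/-- The trivial lower bound. -/
def LowSt : Prop :=
  ∀ (m N : ℕ) (q : Fin N → Fin N → Prop), Tour q → InL q m → 3 * m ≤ N

end Pool.Agent.Lib.MP_4fe900_gt
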