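import Pool.Agent.Lib.MP_4fe900_gt.Exact
import Pool.Agent.Lib.MP_4fe900_gt.G
import Pool.Agent.Lib.MP_4fe900_gt.In
import Pool.Agent.Lib.MP_4fe900_gt.Ext
import Pool.Agent.Lib.MP_4fe900_gt.Low
import Pool.Agent.Lib.MP_4fe900_gt.TL.Top

/-!
Intrinsically linked tournaments: the exact order for large `m`.
-/

namespace Pool.Agent.Lib.MP_4fe900_gt

/-- The cyclic blow-up of a triangle is intrinsically `m`-linked for large `m`. -/
theorem tri_inL : ∃ m₀ : ℕ, ∀ m, m₀ ≤ m → InL (tri m) m := by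
  obtain ⟨n₀, hn⟩ := exact gS
  exact ⟨n₀, fun m hm => inS Pool.Agent.TL.top _ _ _ (hn m hm)⟩

/-- The least order of an intrinsically `m`-linked tournament is `3 m` for large `m`. -/
theorem least : ∃ m₀ : ℕ, ∀ m, m₀ ≤ m →
    IsLeast {N : ℕ | ∃ q : Fin N → Fin N → Prop, Tour q ∧ InL q m} (3 * m) := by
  obtain ⟨m₀, hm⟩ := tri_inL
  refine ⟨m₀, fun m hm' => ⟨ext _ (tri m) m _ (fun a b h1 h2 => ?_) (by simp) (hm m hm'),
    fun N ⟨q, h1, h2⟩ => low m N q h1 h2⟩⟩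
  unfold tri at h1 h2
  revert h1 h2
  generalize a.1 = x
  generalize b.1 = y
  revert x y
  decide

end Pool.Agent.Lib.MP_4fe900_gt
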