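import Pool.Agent.Lib.MP_4fe900_gt.St2

/-!
The greedy growth of a connected family.
-/

namespace Pool.Agent.Lib.MP_4fe900_gt

open Finset Filter Topology
open scoped Classical

namespace Grow

section Gen

variable {V : Type} {r : V → V → Prop} {w : V × V → V × V → ZMod 2}

theorem lnk_symm {X Y : List V} (h : Lnk w X Y) : Lnk w Y X := h.symm

theorem sum_swap {α β : Type} (f : α → β → ZMod 2) (l : List α) (k : List β) :
    (l.map fun a => (k.map fun b => f a b).sum).sum =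
      (k.map fun b => (l.map fun a => f a b).sum).sum := by
  induction l with
  | nil => simp
  | cons a l ih => simp [ih, List.sum_map_add]

theorem lnk_ev {P X : List V} (h : Lnk w P X) :
    ∃ φ : V × V → ZMod 2, ev φ X = 1 ∧ ∀ W, ev φ W = 1 → Lnk w P W := by
  rcases h with h | h
  · refine ⟨fun e => ((arcs P).map fun f => w f e).sum, ?_, fun W hW => Or.inl ?_⟩
    · rw [← h, lk, sum_swap]; rfl
    · rw [← hW, lk, sum_swap]; rfl
  · exact ⟨fun e => ((arcs P).map fun f => w e f).sum, h, fun W hW => Or.inr hW⟩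

/-- families that grow at the head -/
def Ch (r : V → V → Prop) (w : V × V → V × V → ZMod 2) : List (List V) → Prop
  | [] => True
  | X :: L => (L ≠ [] → ∃ Y ∈ L, Lnk w Y X) ∧ (∀ Y ∈ L, X.Disjoint Y) ∧ IsCyc r X ∧ Ch r w L

theorem ch_fun (L : List (List V)) (h : Ch r w L) : ∃ c : ℕ → List V,
    (∀ i < L.length, c i ∈ L) ∧ (∀ Y ∈ L, ∃ i < L.length, c i = Y) ∧
    (∀ i < L.length, IsCyc r (c i)) ∧ (∀ j < L.length, ∀ i < j, (c j).Disjoint (c i)) ∧
    ∀ i < L.length, i ≠ 0 → ∃ j < i, Lnk w (c j) (c i) := by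
  induction L with
  | nil => exact ⟨fun _ => [], by simp, by simp, by simp, by simp, by simp⟩
  | cons X L ih =>
    obtain ⟨h1, h2, h3, h4⟩ := h
    obtain ⟨c, c1, c2, c3, c4, c5⟩ := ih h4
    have e1 : Function.update c L.length X L.length = X := Function.update_self ..
    have e2 : ∀ i < L.length, Function.update c L.length X i = c i := fun i hi =>
      Function.update_of_ne hi.ne ..
    refine ⟨Function.update c L.length X, ?_, ?_, ?_, ?_, ?_⟩
    · intro i hi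
      rcases Nat.lt_succ_iff_lt_or_eq.1 hi with hi | rfl
      · rw [e2 i hi]; exact List.mem_cons_of_mem _ (c1 i hi)
      · rw [e1]; exact List.mem_cons_self
    · intro Y hY
      rcases List.mem_cons.1 hY with rfl | hY
      · exact ⟨L.length, Nat.lt_succ_self _, e1⟩
      · obtain ⟨i, hi, rfl⟩ := c2 Y hY
        exact ⟨i, Nat.lt_succ_of_lt hi, e2 i hi⟩
    · intro i hi
      rcases Nat.lt_succ_iff_lt_or_eq.1 hi with hi | rfl
      · rw [e2 i hi]; exact c3 i hi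
      · rw [e1]; exact h3
    · intro j hj i hi
      rcases Nat.lt_succ_iff_lt_or_eq.1 hj with hj | rfl
      · rw [e2 j hj, e2 i (hi.trans hj)]; exact c4 j hj i hi
      · rw [e1, e2 i hi]; exact h2 _ (c1 i hi)
    · intro i hi h0
      rcases Nat.lt_succ_iff_lt_or_eq.1 hi with hi | rfl
      · obtain ⟨j, hj, hl⟩ := c5 i hi h0
        exact ⟨j, hj, by rwa [e2 i hi, e2 j (hj.trans hi)]⟩
      · obtain ⟨Y, hY, hl⟩ := h1 (fun e => h0 (by simp [e]))
        obtain ⟨j, hj, rfl⟩ := c2 Y hY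
        exact ⟨j, hj, by rwa [e1, e2 j hj]⟩

theorem fam_of_ch (L : List (List V)) (h : Ch r w L) (m : ℕ) (hm : m ≤ L.length) : Fam r w m := by
  obtain ⟨c, -, -, c3, c4, c5⟩ := ch_fun L h
  refine ⟨fun i => c i, fun i => c3 _ (i.2.trans_le hm), ?_, ?_⟩
  · intro i j hij
    rcases lt_or_gt_of_ne hij with h' | h'
    · exact (c4 j (j.2.trans_le hm) i h').symm
    · exact c4 i (i.2.trans_le hm) j h'
  · intro i h0
    obtain ⟨j, hj, hl⟩ := c5 i (i.2.trans_le hm) h0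
    exact ⟨⟨j, hj.trans i.2⟩, hj, hl⟩

end Gen

variable {n : ℕ}

/-- triples -/
abbrev Tr (n : ℕ) := Fin n × Fin n × Fin n

theorem cyc_tl (T : Tr n) : IsCyc (tri n) (tl T) := by
  refine ⟨by simp [tl], by simp [tl], ?_⟩
  intro e he
  simp only [arcs, tl, List.rotate_cons_succ, List.rotate_zero, List.cons_append, List.nil_append,
    List.zip_cons_cons, List.zip_nil_right, List.mem_cons, List.not_mem_nil, or_false] at he
  rcases he with rfl | rfl | rfl <;> simp [tri]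

/-- unused triples -/
def Free (U : Fin 3 → Finset (Fin n)) (T : Tr n) : Prop := ∀ v ∈ tl T, v.2 ∉ U v.1

/-- the new set of used vertices -/
def add (U : Fin 3 → Finset (Fin n)) (T : Tr n) : Fin 3 → Finset (Fin n) :=
  ![insert T.1 (U 0), insert T.2.1 (U 1), insert T.2.2 (U 2)]

theorem free_iff {U : Fin 3 → Finset (Fin n)} {T : Tr n} :
    Free U T ↔ T.1 ∉ U 0 ∧ T.2.1 ∉ U 1 ∧ T.2.2 ∉ U 2 := by
  simp [Free, tl]

theorem mem_add {U : Fin 3 → Finset (Fin n)} {T : Tr n} {v : Fin 3 × Fin n} :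
    v.2 ∈ add U T v.1 ↔ v ∈ tl T ∨ v.2 ∈ U v.1 := by
  obtain ⟨i, x⟩ := v
  fin_cases i <;> simp [add, tl]

theorem bal_add {U : Fin 3 → Finset (Fin n)} {T : Tr n} {u : ℕ} (h : ∀ i, #(U i) = u)
    (hf : Free U T) : ∀ i, #(add U T i) = u + 1 := by
  obtain ⟨h0, h1, h2⟩ := free_iff.1 hf
  intro i
  fin_cases i <;> simp [add, h0, h1, h2, h]

theorem card_not_free {U : Fin 3 → Finset (Fin n)} {u : ℕ} (h : ∀ i, #(U i) = u) :
    #{T : Tr n | ¬Free U T} ≤ 3 * u * n ^ 2 := by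
  have hs : ({T : Tr n | ¬Free U T} : Finset (Tr n)) ⊆
      (U 0 ×ˢ univ ×ˢ univ) ∪ (univ ×ˢ U 1 ×ˢ univ) ∪ (univ ×ˢ univ ×ˢ U 2) := by
    intro T hT
    simp only [mem_filter, mem_univ, true_and, free_iff] at hT
    simp only [mem_union, mem_product, mem_univ, and_true, true_and]
    tauto
  refine (card_le_card hs).trans ((card_union_le _ _).trans ?_)
  refine (Nat.add_le_add_right (card_union_le _ _) _).trans (le_of_eq ?_)
  simp only [card_product, card_univ, Fintype.card_fin, h]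
  ring

theorem card_free {U : Fin 3 → Finset (Fin n)} {u c : ℕ} (h : ∀ i, #(U i) = u)
    (hu : 6 * c * u ≤ n) (S : Finset (Tr n)) (hS : n ^ 3 ≤ c * #S) :
    n ^ 3 ≤ 2 * c * #{T ∈ S | Free U T} := by
  have h1 := card_not_free h
  have h2 : #S ≤ #{T ∈ S | Free U T} + #{T : Tr n | ¬Free U T} := by
    rw [← card_filter_add_card_filter_not (s := S) (fun T => Free U T)]
    exact Nat.add_le_add_left (card_le_card (by intro T hT; simp at hT ⊢; exact hT.2)) _
  have h3 : 6 * c * u * n ^ 2 ≤ n * n ^ 2 := Nat.mul_le_mul_right _ hu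
  have h4 : c * #S ≤ c * (#{T ∈ S | Free U T} + 3 * u * n ^ 2) :=
    Nat.mul_le_mul_left _ (by omega)
  nlinarith

theorem pick {U : Fin 3 → Finset (Fin n)} {u c : ℕ} (h : ∀ i, #(U i) = u) (hn : 0 < n)
    (hu : 6 * c * u ≤ n) (S : Finset (Tr n)) (hS : n ^ 3 ≤ c * #S) : ∃ T ∈ S, Free U T := by
  have h1 := card_free h hu S hS
  have h2 : 0 < #{T ∈ S | Free U T} := by
    by_contra h0
    have : #{T ∈ S | Free U T} = 0 := by omega
    rw [this] at h1
    have := pow_pos hn 3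
    omega
  obtain ⟨T, hT⟩ := card_pos.1 h2
  exact ⟨T, (mem_filter.1 hT).1, (mem_filter.1 hT).2⟩

variable (w : (Fin 3 × Fin n) × (Fin 3 × Fin n) → (Fin 3 × Fin n) × (Fin 3 × Fin n) → ZMod 2)

/-- the triangles that are linked to a member of the family -/
noncomputable def Yl (L : List (List (Fin 3 × Fin n))) : Finset (Tr n) :=
  {T | ∃ X ∈ L, Lnk w X (tl T)}

/-- the state of the growth -/
structure Inv (c : ℕ) (H : Finset (Tr n)) (s q u : ℕ) (L : List (List (Fin 3 × Fin n)))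
    (U : Fin 3 → Finset (Fin n)) : Prop where
  ch : Ch (tri n) w L
  bal : ∀ i, #(U i) = u
  cov : ∀ X ∈ L, ∀ v ∈ X, v.2 ∈ U v.1
  us : u ≤ 5 * (s + 1)
  ls : u ≤ L.length + 3 * q
  q1 : 1 ≤ q
  yq : q * n ^ 3 ≤ 2 * c * #(Yl w L)
  hs : (#(H \ Yl w L) : ℝ) ≤ (1 - 1 / (2 * c)) ^ s * n ^ 3

variable {w}

theorem dom {c u : ℕ} {G D : Finset (Tr n)} {U : Fin 3 → Finset (Fin n)} (hn : 0 < n)
    (h : ∀ i, #(U i) = u) (hu : 6 * c * u ≤ n) (hne : D.Nonempty)
    (hD : ∀ T ∈ D, n ^ 3 ≤ c * #{Z ∈ G | Lnk w (tl T) (tl Z)}) :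
    ∃ Z ∈ G, Free U Z ∧ #D ≤ 2 * c * #{T ∈ D | Lnk w (tl T) (tl Z)} := by
  by_contra hc
  push Not at hc
  set S : Finset (Tr n) := {Z ∈ G | Free U Z} with hS
  have h1 : ∀ T ∈ D, n ^ 3 ≤ 2 * c * #{Z ∈ S | Lnk w (tl T) (tl Z)} := by
    intro T hT
    have := card_free h hu _ (hD T hT)
    rwa [filter_comm] at this
  have hSne : S.Nonempty := by
    obtain ⟨T, hT⟩ := hne
    obtain ⟨Z, hZ, hf⟩ := pick h hn hu _ (hD T hT)
    exact ⟨Z, mem_filter.2 ⟨(mem_filter.1 hZ).1, hf⟩⟩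
  have h2 : ∑ T ∈ D, #{Z ∈ S | Lnk w (tl T) (tl Z)} = ∑ Z ∈ S, #{T ∈ D | Lnk w (tl T) (tl Z)} := by
    simp only [card_filter]
    exact sum_comm
  have h3 : ∑ _T ∈ D, n ^ 3 ≤ ∑ T ∈ D, 2 * c * #{Z ∈ S | Lnk w (tl T) (tl Z)} := sum_le_sum h1
  have h4 : ∑ Z ∈ S, 2 * c * #{T ∈ D | Lnk w (tl T) (tl Z)} < ∑ _Z ∈ S, #D :=
    sum_lt_sum_of_nonempty hSne fun Z hZ => hc Z (mem_filter.1 hZ).1 (mem_filter.1 hZ).2
  have h5 : #S ≤ n ^ 3 := (card_le_univ S).trans (le_of_eq (by simp; ring))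
  rw [← mul_sum] at h3 h4
  rw [h2] at h3
  simp only [sum_const, smul_eq_mul] at h3 h4
  have h6 : #S * #D ≤ n ^ 3 * #D := Nat.mul_le_mul_right _ h5
  nlinarith

theorem disj_of {U : Fin 3 → Finset (Fin n)} {T : Tr n} (hf : Free U T)
    {X : List (Fin 3 × Fin n)} (hX : ∀ v ∈ X, v.2 ∈ U v.1) : (tl T).Disjoint X :=
  fun v h1 h2 => hf v h1 (hX v h2)

theorem yl_mono {L L' : List (List (Fin 3 × Fin n))} (h : L ⊆ L') : Yl w L ⊆ Yl w L' := by
  intro T hT
  simp only [Yl, mem_filter, mem_univ, true_and] at hT ⊢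
  obtain ⟨X, hX, hl⟩ := hT
  exact ⟨X, h hX, hl⟩

theorem step (hB : BrSt) {c : ℕ} (hc : 0 < c) {G H : Finset (Tr n)}
    (hG : ∀ Z ∈ G, n ^ 3 ≤ c * #{T | Lnk w (tl Z) (tl T)})
    (hH : ∀ T ∈ H, n ^ 3 ≤ c * #{Z ∈ G | Lnk w (tl T) (tl Z)}) {s q u : ℕ} {L U}
    (I : Inv w c H s q u L U) (hs : 60 * c * (s + 2) ≤ n) :
    ∃ q u L U, Inv w c H (s + 1) q u L U := by
  have hn : 0 < n := lt_of_lt_of_le (by positivity) hs
  have hc1 : (1 : ℝ) ≤ c := by exact_mod_cast hc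
  have hr : (0 : ℝ) ≤ 1 - 1 / (2 * c) := by
    rw [sub_nonneg, div_le_one (by positivity)]; linarith
  have hu : ∀ k ≤ 5, 6 * (2 * c) * (u + k) ≤ n := fun k hk => by
    have := I.us
    have h1 : 12 * c * (u + k) ≤ 12 * c * (5 * (s + 2)) := Nat.mul_le_mul_left _ (by omega)
    nlinarith
  have hu' : ∀ k ≤ 5, 6 * c * (u + k) ≤ n := fun k hk => by
    have := hu k hk
    nlinarith [Nat.zero_le (c * (u + k))]
  rcases (H \ Yl w L).eq_empty_or_nonempty with he | hne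
  · refine ⟨q, u, L, U, { I with us := by have := I.us; omega, hs := ?_ }⟩
    rw [he]
    simp only [card_empty, Nat.cast_zero]
    positivity
  obtain ⟨Z, hZ, hf, hd⟩ := dom hn I.bal (hu' 0 (by omega)) hne
    fun T hT => hH T (mem_sdiff.1 hT).1
  have hL : L ≠ [] := by
    rintro rfl
    have h1 := I.yq
    have h2 : Yl w ([] : List (List (Fin 3 × Fin n))) = ∅ := by simp [Yl]
    rw [h2] at h1
    have := Nat.mul_pos I.q1 (pow_pos hn 3)
    simp only [card_empty, mul_zero] at h1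
    omega
  have hs' : ∀ X, (#(H \ Yl w (tl Z :: X :: L)) : ℝ) ≤ (1 - 1 / (2 * c)) ^ (s + 1) * n ^ 3 := by
    intro X
    have h1 : H \ Yl w (tl Z :: X :: L) ⊆ {T ∈ H \ Yl w L | ¬Lnk w (tl T) (tl Z)} := by
      intro T hT
      obtain ⟨h1, h2⟩ := mem_sdiff.1 hT
      refine mem_filter.2 ⟨mem_sdiff.2 ⟨h1, fun h => h2 (yl_mono (by simp) h)⟩, fun h => h2 ?_⟩
      simp only [Yl, mem_filter, mem_univ, true_and]
      exact ⟨tl Z, by simp, lnk_symm h⟩
    have h2 := card_filter_add_card_filter_not (s := H \ Yl w L) fun T => Lnk w (tl T) (tl Z)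
    have h3 : (#(H \ Yl w (tl Z :: X :: L)) : ℝ) ≤ #{T ∈ H \ Yl w L | ¬Lnk w (tl T) (tl Z)} := by
      exact_mod_cast card_le_card h1
    have h4 : (#{T ∈ H \ Yl w L | Lnk w (tl T) (tl Z)} : ℝ) +
        #{T ∈ H \ Yl w L | ¬Lnk w (tl T) (tl Z)} = #(H \ Yl w L) := by exact_mod_cast h2
    have h5 : (#(H \ Yl w L) : ℝ) ≤ 2 * c * #{T ∈ H \ Yl w L | Lnk w (tl T) (tl Z)} := by
      exact_mod_cast hd
    have h6 : 1 / (2 * c) * (#(H \ Yl w L) : ℝ) ≤ #{T ∈ H \ Yl w L | Lnk w (tl T) (tl Z)} := by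
      rw [one_div, inv_mul_le_iff₀ (by positivity)]; exact h5
    have h7 := mul_le_mul_of_nonneg_left I.hs hr
    rw [pow_succ]
    nlinarith
  have b1 := bal_add I.bal hf
  set N : Finset (Tr n) := {T | Lnk w (tl Z) (tl T)} with hN
  by_cases h1 : n ^ 3 ≤ 2 * c * #(N ∩ Yl w L)
  · obtain ⟨T, hT, hfT⟩ := pick b1 hn (hu 1 (by omega)) _ h1
    have hT1 : Lnk w (tl Z) (tl T) := by simpa [hN] using (mem_inter.1 hT).1
    have hT2 : ∃ X ∈ L, Lnk w X (tl T) := by simpa [Yl] using (mem_inter.1 hT).2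
    refine ⟨q, u + 2, tl Z :: tl T :: L, add (add U Z) T, ⟨fun _ => ⟨tl T, by simp, lnk_symm hT1⟩,
      ?_, cyc_tl Z, fun _ => hT2, ?_, cyc_tl T, I.ch⟩, bal_add b1 hfT, ?_, ?_, ?_, I.q1, ?_, hs' _⟩
    · intro Y hY
      rcases List.mem_cons.1 hY with rfl | hY
      · exact (disj_of hfT fun v hv => mem_add.2 (Or.inl hv)).symm
      · exact disj_of hf (I.cov Y hY)
    · exact fun Y hY => disj_of hfT fun v hv => mem_add.2 (Or.inr (I.cov Y hY v hv))
    · intro X hX v hv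
      simp only [List.mem_cons] at hX
      simp only [mem_add]
      rcases hX with rfl | rfl | hX
      · exact Or.inr (Or.inl hv)
      · exact Or.inl hv
      · exact Or.inr (Or.inr (I.cov X hX v hv))
    · have := I.us; omega
    · have := I.ls; simp only [List.length_cons]; omega
    · exact I.yq.trans (Nat.mul_le_mul_left _ (card_le_card (yl_mono (by simp))))
  · have hY : n ^ 3 ≤ 2 * c * #(Yl w L) := by
      have := I.yq
      have h2 := Nat.mul_le_mul_right (n ^ 3) I.q1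
      omega
    have hun : n ^ 3 ≤ c * #(univ : Finset (Tr n)) := by
      have : #(univ : Finset (Tr n)) = n ^ 3 := by simp; ring
      rw [this]
      exact Nat.le_mul_of_pos_left _ hc
    obtain ⟨T, hT, f1⟩ := pick b1 hn (hu 1 (by omega)) _ hY
    have b2 := bal_add b1 f1
    obtain ⟨M, -, f2⟩ := pick b2 hn (hu' 2 (by omega)) _ hun
    have b3 := bal_add b2 f2
    obtain ⟨T', hT', f3⟩ := pick b3 hn (hu' 3 (by omega)) _ (hG Z hZ)
    have b4 := bal_add b3 f3
    obtain ⟨M', -, f4⟩ := pick b4 hn (hu' 4 (by omega)) _ hun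
    have b5 := bal_add b4 f4
    obtain ⟨P, hP, hPT⟩ : ∃ X ∈ L, Lnk w X (tl T) := by simpa [Yl] using hT
    obtain ⟨φ, p1, p2⟩ := lnk_ev hPT
    obtain ⟨ψ, p3, p4⟩ := lnk_ev (mem_filter.1 hT').2
    have hnd : (tl T ++ tl M ++ tl T' ++ tl M').Nodup := by
      refine List.Nodup.append (List.Nodup.append (List.Nodup.append (cyc_tl T).2.1 (cyc_tl M).2.1
        ?_) (cyc_tl T').2.1 ?_) (cyc_tl M').2.1 ?_
      · exact (disj_of f2 fun v hv => mem_add.2 (Or.inl hv)).symm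
      · refine (disj_of f3 fun v hv => ?_).symm
        simp only [List.mem_append] at hv
        simp only [mem_add]
        tauto
      · refine (disj_of f4 fun v hv => ?_).symm
        simp only [List.mem_append] at hv
        simp only [mem_add]
        tauto
    obtain ⟨W, w1, w2, w3, w4⟩ := hB n φ ψ T M T' M' hnd p1 p3
    have hW : ∀ v ∈ W, v.2 ∉ add U Z v.1 := by
      intro v hv h
      have := w2 hv
      simp only [List.mem_append] at this
      rcases this with ((h' | h') | h') | h'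
      · exact f1 v h' h
      · exact f2 v h' (by simp only [mem_add] at h ⊢; tauto)
      · exact f3 v h' (by simp only [mem_add] at h ⊢; tauto)
      · exact f4 v h' (by simp only [mem_add] at h ⊢; tauto)
    refine ⟨q + 1, u + 5, tl Z :: W :: L, add (add (add (add (add U Z) T) M) T') M',
      ⟨fun _ => ⟨W, by simp, lnk_symm (p4 W w4)⟩, ?_, cyc_tl Z, fun _ => ⟨P, hP, p2 W w3⟩, ?_, w1,
        I.ch⟩, b5, ?_, ?_, ?_, by omega, ?_, hs' _⟩
    · intro Y hY
      rcases List.mem_cons.1 hY with rfl | hY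
      · exact fun v h1 h2 => hW v h2 (mem_add.2 (Or.inl h1))
      · exact disj_of hf (I.cov Y hY)
    · exact fun Y hY v h1 h2 => hW v h1 (mem_add.2 (Or.inr (I.cov Y hY v h2)))
    · intro X hX v hv
      simp only [List.mem_cons] at hX
      simp only [mem_add]
      rcases hX with rfl | rfl | hX
      · tauto
      · have := w2 hv
        simp only [List.mem_append] at this
        tauto
      · have := I.cov X hX v hv
        tauto
    · have := I.us; omega
    · have := I.ls; simp only [List.length_cons]; omega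
    · have h2 : N ∪ Yl w L ⊆ Yl w (tl Z :: W :: L) := by
        refine union_subset (fun T hT => ?_) (yl_mono (by simp))
        simp only [Yl, mem_filter, mem_univ, true_and]
        exact ⟨tl Z, by simp, (mem_filter.1 hT).2⟩
      have h3 := card_union_add_card_inter N (Yl w L)
      have h4 := Nat.mul_le_mul_left (2 * c) (card_le_card h2)
      have h5 := hG Z hZ
      have h6 := I.yq
      have h7 : 2 * c * (#(N ∪ Yl w L) + #(N ∩ Yl w L)) = 2 * c * (#N + #(Yl w L)) := by rw [h3]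
      push Not at h1
      nlinarith

theorem start {c : ℕ} {G H : Finset (Tr n)} (hn : 20 ≤ n)
    (hG : ∀ Z ∈ G, n ^ 3 ≤ c * #{T | Lnk w (tl Z) (tl T)})
    (hH : ∀ T ∈ H, n ^ 3 ≤ c * #{Z ∈ G | Lnk w (tl T) (tl Z)}) (hT : Thin H) :
    ∃ q u L U, Inv w c H 0 q u L U := by
  have hne : H.Nonempty := by
    by_contra h
    rw [not_nonempty_iff_eq_empty] at h
    have := (hT ⟨0, by omega⟩).1
    simp [h] at this
    nlinarith
  obtain ⟨T, hT⟩ := hne
  obtain ⟨Z, hZ, hf⟩ := pick (U := fun _ => ∅) (u := 0) (by simp) (by omega) (by simp) _ (hH T hT)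
  refine ⟨1, 1, [tl Z], add (fun _ => ∅) Z, ⟨by simp, by simp, cyc_tl Z, trivial⟩,
    bal_add (u := 0) (by simp) hf, ?_, by omega, by simp, le_rfl, ?_, ?_⟩
  · intro X hX v hv
    rw [List.mem_singleton.1 hX] at hv
    exact mem_add.2 (Or.inl hv)
  · have h1 := hG Z (mem_filter.1 hZ).1
    have h2 : Yl w [tl Z] = ({T | Lnk w (tl Z) (tl T)} : Finset (Tr n)) := by simp [Yl]
    rw [h2]
    nlinarith [Nat.zero_le (c * #{T : Tr n | Lnk w (tl Z) (tl T)})]
  · have : #(H \ Yl w [tl Z]) ≤ n ^ 3 := (card_le_univ _).trans (le_of_eq (by simp; ring))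
    simp only [pow_zero, one_mul]
    exact_mod_cast this

theorem ch_app {L : List (List (Fin 3 × Fin n))} {U : Fin 3 → Finset (Fin n)}
    (h : Ch (tri n) w L) (cov : ∀ X ∈ L, ∀ v ∈ X, v.2 ∈ U v.1) (M : List (Tr n))
    (h1 : ∀ T ∈ M, T ∈ Yl w L ∧ Free U T)
    (h2 : M.Pairwise fun T T' => T.1 ≠ T'.1 ∧ T.2.1 ≠ T'.2.1 ∧ T.2.2 ≠ T'.2.2) :
    Ch (tri n) w (M.map tl ++ L) := by
  induction M with
  | nil => simpa using h
  | cons T M ih =>
    obtain ⟨p1, p2⟩ := List.pairwise_cons.1 h2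
    obtain ⟨y1, y2⟩ := h1 T List.mem_cons_self
    refine ⟨fun _ => ?_, ?_, cyc_tl T, ih (fun T' hT' => h1 T' (List.mem_cons_of_mem _ hT')) p2⟩
    · obtain ⟨X, hX, hl⟩ : ∃ X ∈ L, Lnk w X (tl T) := by simpa [Yl] using y1
      exact ⟨X, List.mem_append_right _ hX, hl⟩
    · intro Y hY
      rcases List.mem_append.1 hY with hY | hY
      · obtain ⟨T', hT', rfl⟩ := List.mem_map.1 hY
        obtain ⟨e1, e2, e3⟩ := p1 T' hT'
        simp [tl, e1.symm, e2.symm, e3.symm]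
      · exact disj_of y2 (cov Y hY)

theorem decay (c : ℕ) (hc : 0 < c) : ∃ s₁ : ℕ, ∀ s, s₁ ≤ s →
    (1 - 1 / (2 * (c : ℝ))) ^ s * (60 * c * (s + 2)) ^ 3 < 1 := by
  have hc1 : (1 : ℝ) ≤ c := by exact_mod_cast hc
  have hr : (0 : ℝ) ≤ 1 - 1 / (2 * c) := by
    rw [sub_nonneg, div_le_one (by positivity)]; linarith
  have hr1 : |1 - 1 / (2 * (c : ℝ))| < 1 := by
    rw [abs_of_nonneg hr]
    have : (0 : ℝ) < 1 / (2 * c) := by positivity
    linarith
  have h := (tendsto_pow_const_mul_const_pow_of_abs_lt_one 3 hr1).const_mul ((180 * (c : ℝ)) ^ 3)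
  rw [mul_zero] at h
  obtain ⟨s₁, hs⟩ := eventually_atTop.1 (h.eventually (gt_mem_nhds one_pos))
  refine ⟨s₁ + 1, fun s h1 => lt_of_le_of_lt ?_ (hs s (by omega))⟩
  have h2 : (1 : ℝ) ≤ s := by exact_mod_cast (by omega : 1 ≤ s)
  have h3 : (60 * (c : ℝ) * (s + 2)) ^ 3 ≤ (180 * c * s) ^ 3 :=
    pow_le_pow_left₀ (by positivity) (by nlinarith) 3
  calc _ ≤ (1 - 1 / (2 * (c : ℝ))) ^ s * (180 * c * s) ^ 3 :=
        mul_le_mul_of_nonneg_left h3 (pow_nonneg hr s)
    _ = _ := by ring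

end Grow

open Grow in
theorem conS (h1 : GSt) (h2 : BrSt) (h3 : CntSt) (h4 : PMSt) : ConSt := by
  obtain ⟨c, n₀, hc, hC⟩ := h3
  obtain ⟨s₁, hs₁⟩ := decay c hc
  refine ⟨n₀ + 20 + 60 * c * (s₁ + 1) + 6 * c, fun n m hn w hK => ?_⟩
  obtain ⟨g1, g2, g3⟩ := h1 n w hK
  obtain ⟨G, H, hG, hH, hT⟩ := hC n (by omega) (fun T T' => Lnk w (tl T) (tl T')) g1 g2 g3
  have key : ∀ s, 60 * c * (s + 1) ≤ n → ∃ q u L U, Inv w c H s q u L U := by
    intro s
    induction s with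
    | zero => exact fun _ => start (by omega) hG hH hT
    | succ s ih =>
      intro hs
      obtain ⟨q, u, L, U, I⟩ := ih ((Nat.mul_le_mul_left _ (by omega)).trans hs)
      exact step h2 hc hG hH I hs
  have hd : s₁ + 1 ≤ n / (60 * c) := (Nat.le_div_iff_mul_le (by omega)).2 (by nlinarith)
  obtain ⟨s, hs⟩ : ∃ s, n / (60 * c) = s + 1 := ⟨n / (60 * c) - 1, by omega⟩
  have e1 : 60 * c * (s + 1) ≤ n := hs ▸ Nat.mul_div_le n (60 * c)
  have e2 : n < 60 * c * (s + 2) := by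
    have := Nat.lt_mul_div_succ n (show 0 < 60 * c by omega)
    rwa [hs] at this
  obtain ⟨q, u, L, U, I⟩ := key s e1
  have hc1 : (1 : ℝ) ≤ c := by exact_mod_cast hc
  have hr : (0 : ℝ) ≤ 1 - 1 / (2 * c) := by
    rw [sub_nonneg, div_le_one (by positivity)]; linarith
  have hsub : H ⊆ Yl w L := by
    have e3 : (n : ℝ) ≤ 60 * c * (s + 2) := by exact_mod_cast e2.le
    have e4 := mul_le_mul_of_nonneg_left (pow_le_pow_left₀ (by positivity) e3 3) (pow_nonneg hr s)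
    have e5 : (#(H \ Yl w L) : ℝ) < 1 := (I.hs.trans e4).trans_lt (hs₁ s (by omega))
    have e6 : #(H \ Yl w L) < 1 := by exact_mod_cast e5
    exact sdiff_eq_empty_iff_subset.1 (card_eq_zero.1 (by omega))
  have hq : q ≤ 2 * c := by
    have e3 : #(Yl w L) ≤ n ^ 3 := (card_le_univ _).trans (le_of_eq (by simp; ring))
    exact Nat.le_of_mul_le_mul_right (I.yq.trans (Nat.mul_le_mul_left _ e3))
      (pow_pos (by omega) 3)
  have hu : 2 * u ≤ n := by
    have := I.us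
    have e3 : 60 * 1 * (s + 1) ≤ 60 * c * (s + 1) :=
      Nat.mul_le_mul_right _ (Nat.mul_le_mul_left _ hc)
    omega
  obtain ⟨M, m1, m2, m3⟩ := h4 n H (U 0) (U 1) (U 2) (by omega) hT (by rw [I.bal, I.bal])
    (by rw [I.bal, I.bal]) (by rw [I.bal]; exact hu)
  refine fam_of_ch _ (ch_app I.ch I.cov M
    (fun T hT => ⟨hsub (m2 T hT).1, free_iff.2 (m2 T hT).2⟩) m3) m ?_
  have := I.ls
  rw [I.bal] at m1
  simp only [List.length_append, List.length_map]
  omega

end Pool.Agent.Lib.MP_4fe900_gt
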