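import Pool.Agent.Lib.MP_4fe900_gt.Sx.Blk

/-! The explicit tournament on about six vertices per component. -/

namespace Pool.Agent.Lib.MP_4fe900_gt

open Sx

theorem exI {N : ℕ} (l h : ℕ) (hN : h ≤ N) :
    ∃ S : Finset (Fin N), S.card = h - l ∧ ∀ x, x ∈ S ↔ l ≤ x.val ∧ x.val < h := by
  refine ⟨(Finset.Ico l h).attachFin (fun m hm => lt_of_lt_of_le (Finset.mem_Ico.mp hm).2 hN),
    by rw [Finset.card_attachFin, Nat.card_Ico], fun x => ?_⟩
  rw [Finset.mem_attachFin, Finset.mem_Ico]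

theorem six : SixSt := by
  intro m hm
  obtain ⟨k, rfl⟩ : ∃ k, m = k + 2 := ⟨m - 2, by omega⟩
  obtain ⟨n0, hn0⟩ : ∃ n0, n0 = (k + 1) / 2 := ⟨_, rfl⟩
  obtain ⟨n1, hn1⟩ : ∃ n1, n1 = (k + 2) / 2 := ⟨_, rfl⟩
  obtain ⟨p1, hp1⟩ : ∃ p1, p1 = 3 * n0 + 1 + (k + 1) % 2 := ⟨_, rfl⟩
  obtain ⟨p2, hp2⟩ : ∃ p2, p2 = p1 + 3 * n0 := ⟨_, rfl⟩
  obtain ⟨p3, hp3⟩ : ∃ p3, p3 = p2 + 3 * n1 := ⟨_, rfl⟩
  obtain ⟨N, hN⟩ : ∃ N, N = p3 + 3 * n1 + 1 := ⟨_, rfl⟩
  let r : Fin N → Fin N → Prop := fun x y =>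
    (x.val < y.val ∧ ¬(x.val < p1 ∧ p3 ≤ y.val)) ∨ (p3 ≤ x.val ∧ y.val < p1)
  have hr : ∀ x y, r x y ↔
    (x.val < y.val ∧ ¬(x.val < p1 ∧ p3 ≤ y.val)) ∨ (p3 ≤ x.val ∧ y.val < p1) := fun _ _ => Iff.rfl
  refine ⟨Fin N, inferInstance, r, by rw [Fintype.card_fin]; omega, ?_, ?_⟩
  · intro a b
    rw [hr, hr]; omega
  intro w hw
  have : Nonempty (Fin N) := ⟨⟨0, by omega⟩⟩
  obtain ⟨A0, c1, m1⟩ := exI (N := N) 0 p1 (by omega)
  obtain ⟨B0, c2, m2⟩ := exI (N := N) p1 p2 (by omega)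
  obtain ⟨A1, c3, m3⟩ := exI (N := N) p2 p3 (by omega)
  obtain ⟨B1, c4, m4⟩ := exI (N := N) p3 N le_rfl
  have d0 : Disjoint A0 B0 := Finset.disjoint_left.mpr fun x h1 h2 => by
    rw [m1] at h1; rw [m2] at h2; omega
  have d1 : Disjoint A1 B1 := Finset.disjoint_left.mpr fun x h1 h2 => by
    rw [m3] at h1; rw [m4] at h2; omega
  obtain ⟨q0, UA0, UB0, a1, a2, a3, -, a5, a6, a7⟩ := pool (r := r) (w := w) d0 1 0
    (fun A' hA B' hB h1 h2 => blkA hw h1 h2 (Finset.disjoint_of_subset_left hA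
      (Finset.disjoint_of_subset_right hB d0))
      (fun a ha b hb => by
        have := (m1 a).mp (hA ha); have := (m2 b).mp (hB hb); rw [hr]; omega)
      (fun a ha b hb hab => by
        have := (m1 a).mp (hA ha); have := (m1 b).mp (hA hb); have := Fin.lt_def.mp hab
        rw [hr]; omega)
      (fun a ha b hb hab => by
        have := (m2 a).mp (hB ha); have := (m2 b).mp (hB hb); have := Fin.lt_def.mp hab
        rw [hr]; omega)) n0 (by omega) (by omega)
  obtain ⟨q1, UA1, UB1, b1, b2, -, b4, b5, b6, b7⟩ := pool (r := r) (w := w) d1 0 1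
    (fun A' hA B' hB h1 h2 => blkB hw h1 h2 (Finset.disjoint_of_subset_left hA
      (Finset.disjoint_of_subset_right hB d1))
      (fun a ha b hb => by
        have := (m3 a).mp (hA ha); have := (m4 b).mp (hB hb); rw [hr]; omega)
      (fun a ha b hb hab => by
        have := (m3 a).mp (hA ha); have := (m3 b).mp (hA hb); have := Fin.lt_def.mp hab
        rw [hr]; omega)
      (fun a ha b hb hab => by
        have := (m4 a).mp (hB ha); have := (m4 b).mp (hB hb); have := Fin.lt_def.mp hab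
        rw [hr]; omega)) n1 (by omega) (by omega)
  have s0 := Finset.card_sdiff_add_card_eq_card a1
  have s1 := Finset.card_sdiff_add_card_eq_card b2
  have r0 : ∀ i < n0, ∀ z ∈ pv (q0 i), z.val < p2 ∧ (z.val < p1 → z ∈ UA0) := by
    intro i hi z hz
    rcases a6 i hi z hz with h | h
    · have := (m1 z).mp (a1 h)
      exact ⟨by omega, fun _ => h⟩
    · have := (m2 z).mp (a2 h)
      exact ⟨by omega, fun _ => by omega⟩
  have r1 : ∀ i < n1, ∀ z ∈ pv (q1 i), p2 ≤ z.val ∧ (p3 ≤ z.val → z ∈ UB1) := by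
    intro i hi z hz
    rcases b6 i hi z hz with h | h
    · have := (m3 z).mp (b1 h)
      exact ⟨by omega, fun _ => by omega⟩
    · have := (m4 z).mp (b2 h)
      exact ⟨by omega, fun _ => h⟩
  let q : ℕ → Tr (Fin N) × Tr (Fin N) := fun i => if i % 2 = 0 then q1 (i / 2) else q0 (i / 2)
  let S : ℕ → Finset (Fin N) := fun i => if i % 2 = 0 then A1 else A0
  let T : ℕ → Finset (Fin N) := fun i => if i % 2 = 0 then B1 else B0
  have ev : ∀ i, i % 2 = 0 → q i = q1 (i / 2) ∧ S i = A1 ∧ T i = B1 := fun i h =>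
    ⟨if_pos h, if_pos h, if_pos h⟩
  have od : ∀ i, ¬i % 2 = 0 → q i = q0 (i / 2) ∧ S i = A0 ∧ T i = B0 := fun i h =>
    ⟨if_neg h, if_neg h, if_neg h⟩
  have freeA : ∀ u ∈ A0 \ UA0, ∀ i ≤ k, u ∉ pv (q i) := by
    intro u hu i hi hz
    obtain ⟨u1, u2⟩ := Finset.mem_sdiff.mp hu
    have := (m1 u).mp u1
    by_cases h : i % 2 = 0
    · rw [(ev i h).1] at hz
      have := (r1 _ (by omega) u hz).1
      omega
    · rw [(od i h).1] at hz
      exact u2 ((r0 _ (by omega) u hz).2 (by omega))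
  have freeB : ∀ u ∈ B1 \ UB1, ∀ i ≤ k, u ∉ pv (q i) := by
    intro u hu i hi hz
    obtain ⟨u1, u2⟩ := Finset.mem_sdiff.mp hu
    have := (m4 u).mp u1
    by_cases h : i % 2 = 0
    · rw [(ev i h).1] at hz
      exact u2 ((r1 _ (by omega) u hz).2 (by omega))
    · rw [(od i h).1] at hz
      have := (r0 _ (by omega) u hz).1
      omega
  have clA : ∀ u ∈ A0 \ UA0, (∀ a ∈ B1, r a u) ∧ ∀ a ∈ A1, r u a := by
    intro u hu
    have := (m1 u).mp (Finset.mem_sdiff.mp hu).1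
    constructor
    · intro a ha
      have := (m4 a).mp ha
      rw [hr]; omega
    · intro a ha
      have := (m3 a).mp ha
      rw [hr]; omega
  have go : ∀ u ∈ A0 \ UA0, ∀ u', (∀ i ≤ k, u' ∉ pv (q i)) → u' ≠ u → (∀ a ∈ T k, r a u') →
      (∀ a ∈ S k, r u' a) → Fam r w (k + 2) := by
    intro u hu u' f1 f2 f3 f4
    refine chain k q S T ?_ ?_ ?_ ?_ (freeA u hu) f1 f2 ?_ ?_ f3 f4
    · intro i hi
      by_cases h : i % 2 = 0
      · obtain ⟨e1, e2, e3⟩ := ev i h
        rw [e1, e2, e3]; exact b5 _ (by omega)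
      · obtain ⟨e1, e2, e3⟩ := od i h
        rw [e1, e2, e3]; exact a5 _ (by omega)
    · intro i hi j hj
      by_cases h : i % 2 = 0 <;> by_cases h' : j % 2 = 0
      · rw [(ev i h).1, (ev j h').1]; exact b7 _ (by omega) _ (by omega)
      · rw [(ev i h).1, (od j h').1, Set.disjoint_left]
        intro z z1 z2
        have := (r1 _ (by omega) z z1).1
        have := (r0 _ (by omega) z z2).1
        omega
      · rw [(od i h).1, (ev j h').1, Set.disjoint_left]
        intro z z1 z2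
        have := (r0 _ (by omega) z z1).1
        have := (r1 _ (by omega) z z2).1
        omega
      · rw [(od i h).1, (od j h').1]; exact a7 _ (by omega) _ (by omega)
    · intro i hi a ha b hb
      by_cases h : i % 2 = 0
      · rw [(ev i h).2.2, m4] at ha
        rw [(od (i + 1) (by omega)).2.1, m1] at hb
        rw [hr]; omega
      · rw [(od i h).2.2, m2] at ha
        rw [(ev (i + 1) (by omega)).2.1, m3] at hb
        rw [hr]; omega
    · intro i hi a ha b hb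
      by_cases h : i % 2 = 0
      · rw [(od (i + 1) (by omega)).2.2, m2] at ha
        rw [(ev i h).2.1, m3] at hb
        rw [hr]; omega
      · rw [(ev (i + 1) (by omega)).2.2, m4] at ha
        rw [(od i h).2.1, m1] at hb
        rw [hr]; omega
    · rw [(ev 0 rfl).2.2]; exact (clA u hu).1
    · rw [(ev 0 rfl).2.1]; exact (clA u hu).2
  by_cases hk : k % 2 = 0
  · obtain ⟨u, hu, u', hu', huu⟩ := Finset.one_lt_card.mp (by omega : 1 < (A0 \ UA0).card)
    refine go u hu u' (freeA u' hu') huu.symm ?_ ?_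
    · rw [(ev k hk).2.2]; exact (clA u' hu').1
    · rw [(ev k hk).2.1]; exact (clA u' hu').2
  · obtain ⟨u, hu⟩ := Finset.card_pos.mp (by omega : 0 < (A0 \ UA0).card)
    obtain ⟨u', hu'⟩ := Finset.card_pos.mp (by omega : 0 < (B1 \ UB1).card)
    have h1 := (m1 u).mp (Finset.mem_sdiff.mp hu).1
    have h2 := (m4 u').mp (Finset.mem_sdiff.mp hu').1
    refine go u hu u' (freeB u' hu') (by rintro rfl; omega) ?_ ?_
    · rw [(od k hk).2.2]
      intro a ha
      have := (m2 a).mp ha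
      rw [hr]; omega
    · rw [(od k hk).2.1]
      intro a ha
      have := (m1 a).mp ha
      rw [hr]; omega

end Pool.Agent.Lib.MP_4fe900_gt
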