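import Pool.Agent.Lib.MP_4fe900_gt.Up
import Pool.Agent.Lib.MP_4fe900_gt.In
import Pool.Agent.Lib.MP_4fe900_gt.Ext
import Pool.Agent.Lib.MP_4fe900_gt.Six
import Pool.Agent.Lib.MP_4fe900_gt.TL.Top

set_option autoImplicit false

open Pool.Agent.Lib.MP_4fe900_gt

namespace Pool.Agent.Lib.MP_4fe900_gt.SmallOrder

/-- For every `n ≥ 3` some tournament on `6 n - 3 - (n mod 2)` vertices is intrinsically
`n`-linked. -/
theorem result (n : ℕ) (hn : 3 ≤ n) :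
    ∃ (E : Type) (_ : Finite E) (s t : E → Fin (6 * n - 3 - n % 2)),
      DG.Tour s t ∧ ∀ Φ : DG.Emb s t, Φ.Linked n := by
  obtain ⟨V, _, r, h1, h2, h3⟩ := six n (by omega)
  obtain ⟨q, hq, hI⟩ := ext V r n _ h2 h1 (inS Pool.Agent.TL.top V r n h3)
  exact ⟨_, inferInstance, _, _, up hq hI⟩

end Pool.Agent.Lib.MP_4fe900_gt.SmallOrder
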