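import Pool.Agent.Lib.MP_4fe900_gt.St

/-!
Intrinsically linked tournaments with a bounded loss: the statements of the blocks.
-/

namespace Pool.Agent.Lib.MP_4fe900_gt

open Finset
open scoped Classical

/-- The directed triangle of a triple. -/
def tl {n : ℕ} (T : Fin n × Fin n × Fin n) : List (Fin 3 × Fin n) :=
  [(0, T.1), (1, T.2.1), (2, T.2.2)]

/-- Linked in one of the two orders. -/
def Lnk {V : Type} (w : V × V → V × V → ZMod 2) (X Y : List V) : Prop :=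
  lk w X Y = 1 ∨ lk w Y X = 1

/-- A related pair in every box with two, three and three points. -/
def Box {X : Type} (R : X × X × X → X × X × X → Prop) : Prop :=
  ∀ (v v' : X) (b c : Fin 3 → X), v ≠ v' → Function.Injective b → Function.Injective c →
    ∃ j j' k k', j ≠ j' ∧ k ≠ k' ∧ R (v, b j, c k) (v', b j', c k')

/-- The cyclic rotation of a triple. -/
def rot {X : Type} (T : X × X × X) : X × X × X := (T.2.2, T.1, T.2.1)

/-- Linked pairs of triangles in all boxes. -/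
def GSt : Prop :=
  ∀ (n : ℕ) (w : _), K33 (tri n) w →
    Box (fun T T' : Fin n × Fin n × Fin n => Lnk w (tl T) (tl T')) ∧
    Box (fun T T' : Fin n × Fin n × Fin n => Lnk w (tl (rot T)) (tl (rot T'))) ∧
    Box (fun T T' : Fin n × Fin n × Fin n => Lnk w (tl (rot (rot T))) (tl (rot (rot T'))))

/-- The sum of a labelling over the edges of a cycle. -/
def ev {V : Type} (φ : V × V → ZMod 2) (X : List V) : ZMod 2 := ((arcs X).map φ).sum

/-- The bridge. -/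
def BrSt : Prop :=
  ∀ (n : ℕ) (φ ψ : (Fin 3 × Fin n) × (Fin 3 × Fin n) → ZMod 2) (T N T' N' : Fin n × Fin n × Fin n),
    (tl T ++ tl N ++ tl T' ++ tl N').Nodup → ev φ (tl T) = 1 → ev ψ (tl T') = 1 →
    ∃ W, IsCyc (tri n) W ∧ W ⊆ tl T ++ tl N ++ tl T' ++ tl N' ∧ ev φ W = 1 ∧ ev ψ W = 1

/-- Few exceptions through every point. -/
def Thin {X : Type} [Fintype X] (H : Finset (X × X × X)) : Prop :=
  ∀ v : X, 100 * #{p : X × X | (v, p.1, p.2) ∉ H} ≤ Fintype.card X ^ 2 ∧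
    100 * #{p : X × X | (p.2, v, p.1) ∉ H} ≤ Fintype.card X ^ 2 ∧
    100 * #{p : X × X | (p.1, p.2, v) ∉ H} ≤ Fintype.card X ^ 2

/-- The counting block. -/
def CntSt : Prop :=
  ∃ c n₀ : ℕ, 0 < c ∧ ∀ n, n₀ ≤ n → ∀ R : Fin n × Fin n × Fin n → Fin n × Fin n × Fin n → Prop,
    Box R → Box (fun T T' => R (rot T) (rot T')) →
    Box (fun T T' => R (rot (rot T)) (rot (rot T'))) →
    ∃ G H : Finset (Fin n × Fin n × Fin n), (∀ Z ∈ G, n ^ 3 ≤ c * #{T | R Z T}) ∧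
      (∀ T ∈ H, n ^ 3 ≤ c * #{Z ∈ G | R T Z}) ∧ Thin H

/-- The perfect matching. -/
def PMSt : Prop :=
  ∀ (n : ℕ) (H : Finset (Fin n × Fin n × Fin n)) (A B C : Finset (Fin n)), 20 ≤ n → Thin H →
    #A = #B → #A = #C → 2 * #A ≤ n → ∃ M : List (Fin n × Fin n × Fin n), M.length + #A = n ∧
      (∀ T ∈ M, T ∈ H ∧ T.1 ∉ A ∧ T.2.1 ∉ B ∧ T.2.2 ∉ C) ∧
      M.Pairwise fun T T' => T.1 ≠ T'.1 ∧ T.2.1 ≠ T'.2.1 ∧ T.2.2 ≠ T'.2.2

/-- The bounded loss. -/
def ConSt : Prop :=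
  ∃ C : ℕ, ∀ n m : ℕ, m + C ≤ n → ∀ w, K33 (tri n) w → Fam (tri n) w m

end Pool.Agent.Lib.MP_4fe900_gt
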