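import Pool.Agent.Lib.MP_4fe900_gt.DG
import Pool.Agent.Lib.MP_4fe900_gt.Defs

/-!
From relations to digraphs with a set of edges.
-/

namespace Pool.Agent.Lib.MP_4fe900_gt

open Set

namespace Up

open scoped Classical in
/-- The embedding of the relation. -/
noncomputable def emb {V : Type} {q : V → V → Prop}
    (Φ : DG.Emb (fun e : {p : V × V // q p.1 p.2} => e.1.1) fun e => e.1.2) : Emb q where
  pt := Φ.pt
  arc := fun a b => if h : q a b then Φ.arc ⟨(a, b), h⟩ else 0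
  pt_inj := Φ.pt_inj
  src := fun a b h => by simpa [h] using Φ.src ⟨(a, b), h⟩
  tgt := fun a b h => by simpa [h] using Φ.tgt ⟨(a, b), h⟩
  arc_inj := fun a b h => by simpa [h] using Φ.arc_inj ⟨(a, b), h⟩
  arc_pt := fun a b v t h => by simpa [h] using Φ.arc_pt ⟨(a, b), h⟩ v t
  meet := fun a b c d s t h h' hne => by
    simpa [h, h'] using Φ.meet ⟨(a, b), h⟩ ⟨(c, d), h'⟩ s t fun e => hne (congrArg Subtype.val e)

end Up

theorem up {V : Type} {q : V → V → Prop} {m : ℕ} (hT : Tour q) (hI : InL q m) :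
    DG.Tour (fun e : {p : V × V // q p.1 p.2} => e.1.1) (fun e => e.1.2) ∧
      ∀ Φ : DG.Emb (fun e : {p : V × V // q p.1 p.2} => e.1.1) fun e => e.1.2, Φ.Linked m := by
  refine ⟨⟨fun ⟨⟨a, b⟩, h⟩ e => ?_, fun a b hab => ?_⟩, fun Φ => ?_⟩
  · obtain rfl : a = b := e
    exact hT.1 a a h h
  · rcases hT.2 a b hab with h | h
    · refine ⟨⟨(a, b), h⟩, Or.inl ⟨rfl, rfl⟩, ?_⟩
      rintro ⟨⟨x, y⟩, h'⟩ (⟨rfl, rfl⟩ | ⟨rfl, rfl⟩)
      · rfl
      · exact absurd h' (hT.1 _ _ h)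
    · refine ⟨⟨(b, a), h⟩, Or.inr ⟨rfl, rfl⟩, ?_⟩
      rintro ⟨⟨x, y⟩, h'⟩ (⟨rfl, rfl⟩ | ⟨rfl, rfl⟩)
      · exact absurd h' (hT.1 _ _ h)
      · rfl
  · obtain ⟨c, hc, hd, hn⟩ := hI (Up.emb Φ)
    let c' : Fin m → List {p : V × V // q p.1 p.2} := fun i =>
      (arcs (c i)).pmap (fun p h => ⟨p, h⟩) (hc i).2.2
    have h0 : ∀ i, (c' i).map Subtype.val = arcs (c i) := fun i => by
      simp [c', List.map_pmap]
    have h1 : ∀ i, (c' i).map (fun e => e.1.1) = c i := fun i => by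
      rw [show (fun e : {p : V × V // q p.1 p.2} => e.1.1) = Prod.fst ∘ Subtype.val from rfl,
        ← List.map_map, h0, arcs, List.map_fst_zip (by simp)]
    have h2 : ∀ i, (c' i).map (fun e => e.1.2) = (c i).rotate 1 := fun i => by
      rw [show (fun e : {p : V × V // q p.1 p.2} => e.1.2) = Prod.snd ∘ Subtype.val from rfl,
        ← List.map_map, h0, arcs, List.map_snd_zip (by simp)]
    refine ⟨c', fun i => ⟨fun e => (hc i).1 (by rw [← h1, e]; rfl), by rw [h1]; exact (hc i).2.1,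
      by rw [h1, h2]⟩, fun i j hij => by simp only [h1]; exact hd hij, ?_⟩
    have : (fun i => ⋃ e ∈ c' i, range (Φ.arc e)) = fun i => (Up.emb Φ).img (c i) := by
      funext i
      ext x
      simp only [Emb.img, ← h0, mem_iUnion, List.mem_map, exists_prop]
      constructor
      · rintro ⟨e, he, hx⟩
        exact ⟨_, ⟨e, he, rfl⟩, by simpa [Up.emb, e.2] using hx⟩
      · rintro ⟨_, ⟨e, he, rfl⟩, hx⟩
        exact ⟨e, he, by simpa [Up.emb, e.2] using hx⟩
    rw [this]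
    exact hn

end Pool.Agent.Lib.MP_4fe900_gt
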